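import Pool.Agent.RL2.Final
import Pool.Agent.RFS53.Inst

/-!
MP_3f3e0f_an: all the data `RepG` of the Bezoutian metric of `∑ a_k f_k z^k` (`a = esy w V`, `f = esy u U`,
`card V = card U`), given accretivity.
-/

set_option linter.unusedSectionVars false

namespace RL2

open Finset RL1

variable {α β : Type*} [DecidableEq α] [DecidableEq β]

theorem gL_eq (u : α → ℝ) (U : Finset α) (j k : ℕ) (x : ℝ) :
    gL u U (j + 1) k x = ∑ l ∈ U, u l * x * hx u (U.erase l) j k x := by
  unfold gL
  rw [sum2_powersetCard]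
  have e1 : ∀ A B : Finset α, (if A.card = j + 1 ∧ B.card = k then
      wt u A * wt u B * (((A \ B).card : ℝ) * x ^ (symmDiff A B).card) else 0)
      = ((A \ B).card : ℝ) * (if A.card = j + 1 ∧ B.card = k then wt u A * wt u B * x ^ (symmDiff A B).card else 0) := by
    intro A B
    split_ifs <;> ring
  simp only [e1]
  rw [sum_sdiff_card]
  refine sum_congr rfl fun l _ => ?_
  rw [hx, sum2_powersetCard, mul_sum]
  refine sum_congr rfl fun A hA => ?_
  rw [mul_sum]
  refine sum_congr rfl fun B hB => ?_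
  have hlA : l ∉ A := fun h => (mem_erase.1 (mem_powerset.1 hA h)).1 rfl
  have hlB : l ∉ B := fun h => (mem_erase.1 (mem_powerset.1 hB h)).1 rfl
  rw [card_insert_of_notMem hlA, card_symmDiff_insert_left hlA hlB, wt_insert u hlA]
  simp only [Nat.add_right_cancel_iff]
  split_ifs <;> ring

theorem gL_zero (u : α → ℝ) (U : Finset α) (k : ℕ) (x : ℝ) : gL u U 0 k x = 0 := by
  unfold gL
  rw [powersetCard_zero, sum_singleton]
  refine sum_eq_zero fun B _ => ?_
  simp

/-- the odd block -/
noncomputable def E2 (w : α → ℝ) (V : Finset α) (u : β → ℝ) (U : Finset β) (i k : ℕ) : ℝ :=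
  ∫ x in (0 : ℝ)..1, 2 * hx w V (i + 1) (k + 1) x * gL u U (i + 1) k x

theorem E2_symm (w : α → ℝ) (V : Finset α) (u : β → ℝ) (U : Finset β) (i k : ℕ) :
    E2 w V u U i k = E2 w V u U k i := by
  unfold E2
  refine intervalIntegral.integral_congr fun x _ => ?_
  have h : 2 * hx w V (i + 1) (k + 1) x * gL u U (i + 1) k x = 2 * hx w V (k + 1) (i + 1) x * gL u U (k + 1) i x := by
    rw [hx_symm, gL_shift]
  exact h

theorem E1_comp0 (w : α → ℝ) (V : Finset α) (u : β → ℝ) (U : Finset β) (k : ℕ) :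
    E1 (mom (hx u U)) w V k 0 = (esy w V (k + 1) * esy u U k) * (esy w V 0 * esy u U 0) := by
  rw [E1_integral _ (hx_cont u U)]
  have c1 := hx_cont u U k 0
  have c3 := gL_cont w V (k + 1) 0
  have hder : ∀ x ∈ Set.uIcc (0 : ℝ) 1, HasDerivAt
      (fun x => x * hx w V (k + 1) 0 x * hx u U k 0 x)
      (2 * hx u U k 0 x * gL w V (k + 1) 0 x) x := by
    intro x _
    have h1 := ((hasDerivAt_id x).mul (hx_deriv w V (k + 1) 0 x)).mul (hx_deriv u U k 0 x)
    refine h1.congr_deriv ?_
    have e1 := two_gL w V (k + 1) 0 x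
    have e6 := hd_mul w V (k + 1) 0 x
    have f1 := two_gL u U 0 k x
    have f6 := hd_mul u U k 0 x
    rw [gL_zero, gS_symm, hx_symm] at f1
    simp only [id, Pi.mul_apply]
    push_cast at e1 f1
    linear_combination (-hx u U k 0 x) * e1 + (hx u U k 0 x) * e6 + (hx w V (k + 1) 0 x) * f6
      + (-hx w V (k + 1) 0 x) * f1
  rw [intervalIntegral.integral_eq_sub_of_hasDerivAt hder (Continuous.intervalIntegrable (by fun_prop) _ _)]
  simp only [hx_one, one_mul, zero_mul, sub_zero]
  ring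

theorem E1_comp (w : α → ℝ) (V : Finset α) (u : β → ℝ) (U : Finset β) (i k : ℕ) :
    E1 (mom (hx u U)) w V k (i + 1) + E2 w V u U i k
      = (esy w V (k + 1) * esy u U k) * (esy w V (i + 1) * esy u U (i + 1)) := by
  rw [E1_integral _ (hx_cont u U), E2]
  have c1 := hx_cont u U k (i + 1)
  have c2 := hx_cont w V (i + 1) (k + 1)
  have c3 := gL_cont w V (k + 1) (i + 1)
  have c4 := gL_cont u U (i + 1) k
  rw [← intervalIntegral.integral_add (Continuous.intervalIntegrable (by fun_prop) _ _)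
    (Continuous.intervalIntegrable (by fun_prop) _ _)]
  have hder : ∀ x ∈ Set.uIcc (0 : ℝ) 1, HasDerivAt
      (fun x => x * hx w V (k + 1) (i + 1) x * hx u U k (i + 1) x)
      (2 * hx u U k (i + 1) x * gL w V (k + 1) (i + 1) x + 2 * hx w V (i + 1) (k + 1) x * gL u U (i + 1) k x) x := by
    intro x _
    have h1 := ((hasDerivAt_id x).mul (hx_deriv w V (k + 1) (i + 1) x)).mul (hx_deriv u U k (i + 1) x)
    refine h1.congr_deriv ?_
    have e1 := two_gL w V (k + 1) (i + 1) x
    have e6 := hd_mul w V (k + 1) (i + 1) x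
    have f1 := two_gL u U (i + 1) k x
    have f6 := hd_mul u U k (i + 1) x
    have g1 := hx_symm w V (i + 1) (k + 1) x
    rw [gS_symm u U (i + 1) k, hx_symm u U (i + 1) k] at f1
    simp only [id, Pi.mul_apply]
    push_cast at e1 f1
    rw [g1]
    linear_combination (-hx u U k (i + 1) x) * e1 + (hx u U k (i + 1) x) * e6
      + (hx w V (k + 1) (i + 1) x) * f6 + (-hx w V (k + 1) (i + 1) x) * f1
  rw [intervalIntegral.integral_eq_sub_of_hasDerivAt hder (Continuous.intervalIntegrable (by fun_prop) _ _)]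
  simp only [hx_one, one_mul, zero_mul, sub_zero]
  ring

theorem E1_top {w : α → ℝ} {V : Finset α} (u : β → ℝ) (U : Finset β) (k : ℕ) :
    E1 (mom (hx u U)) w V k V.card = 0 := by
  rw [E1_symm]
  unfold E1
  rw [Finset.powersetCard_eq_empty.mpr (Nat.lt_succ_self _), Finset.sum_empty]

/-! ### positive definiteness -/

/-- sum of squares of the weights -/
noncomputable def ssq (w : α → ℝ) (V : Finset α) (j : ℕ) : ℝ := ∑ A ∈ V.powersetCard j, wt w A ^ 2

theorem ssq_nonneg (w : α → ℝ) (V : Finset α) (j : ℕ) : 0 ≤ ssq w V j :=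
  sum_nonneg fun _ _ => sq_nonneg _

theorem ssq_pos {w : α → ℝ} (hw : ∀ a, 0 < w a) {V : Finset α} {j : ℕ} (hj : j ≤ V.card) : 0 < ssq w V j :=
  Finset.sum_pos (fun A _ => pow_pos (Finset.prod_pos fun a _ => hw a) 2) (Finset.powersetCard_nonempty.mpr hj)

/-- the form of the x-kernel -/
theorem hx_form (u : β → ℝ) (U : Finset β) (x : ℝ) (N : ℕ) (c : ℕ → ℝ) :
    ∑ j ∈ range N, ∑ k ∈ range N, c j * c k * hx u U j k x
      = qt x U (fun C => if C.card < N then c C.card * wt u C else 0) := by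
  have e1 : ∀ j ∈ range N, ∀ k ∈ range N, c j * c k * hx u U j k x
      = ∑ A ∈ U.powerset, ∑ B ∈ U.powerset, if A.card = j ∧ B.card = k then
        c A.card * wt u A * (c B.card * wt u B) * x ^ (symmDiff A B).card else 0 := by
    intro j _ k _
    rw [hx, sum2_powersetCard, mul_sum]
    refine sum_congr rfl fun A _ => ?_
    rw [mul_sum]
    refine sum_congr rfl fun B _ => ?_
    split_ifs with h
    · rw [h.1, h.2]; ring
    · ring
  rw [sum_congr rfl fun j hj => sum_congr rfl fun k hk => e1 j hj k hk]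
  unfold qt
  have e2 : ∀ j ∈ range N, ∑ k ∈ range N, ∑ A ∈ U.powerset, ∑ B ∈ U.powerset, (if A.card = j ∧ B.card = k then
        c A.card * wt u A * (c B.card * wt u B) * x ^ (symmDiff A B).card else 0)
      = ∑ A ∈ U.powerset, ∑ B ∈ U.powerset, ∑ k ∈ range N, if A.card = j ∧ B.card = k then
        c A.card * wt u A * (c B.card * wt u B) * x ^ (symmDiff A B).card else 0 := by
    intro j _
    rw [sum_comm]
    refine sum_congr rfl fun A _ => ?_
    rw [sum_comm]
  rw [sum_congr rfl e2, sum_comm]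
  refine sum_congr rfl fun A _ => ?_
  rw [sum_comm]
  refine sum_congr rfl fun B _ => ?_
  simp only
  by_cases hA : A.card < N
  · rw [if_pos hA]
    by_cases hB : B.card < N
    · rw [if_pos hB, sum_eq_single_of_mem A.card (mem_range.2 hA), sum_eq_single_of_mem B.card (mem_range.2 hB)]
      · simp
      · intro k _ hk
        rw [if_neg (fun h => hk h.2.symm)]
      · intro j _ hj
        refine sum_eq_zero fun k _ => ?_
        rw [if_neg (fun h => hj h.1.symm)]
    · rw [if_neg hB]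
      have : ∑ j ∈ range N, ∑ k ∈ range N, (if A.card = j ∧ B.card = k then
          c A.card * wt u A * (c B.card * wt u B) * x ^ (symmDiff A B).card else 0) = 0 := by
        refine sum_eq_zero fun j _ => sum_eq_zero fun k hk => ?_
        rw [if_neg]
        rintro ⟨_, h2⟩
        exact hB (h2 ▸ mem_range.1 hk)
      rw [this]; ring
  · rw [if_neg hA]
    have : ∑ j ∈ range N, ∑ k ∈ range N, (if A.card = j ∧ B.card = k then
        c A.card * wt u A * (c B.card * wt u B) * x ^ (symmDiff A B).card else 0) = 0 := by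
      refine sum_eq_zero fun j hj => sum_eq_zero fun k _ => ?_
      rw [if_neg]
      rintro ⟨h1, _⟩
      exact hA (h1 ▸ mem_range.1 hj)
    rw [this]; ring

theorem hx_lower (u : β → ℝ) (U : Finset β) (x : ℝ) (h0 : 0 ≤ x) (h1 : x ≤ 1) (N : ℕ) (c : ℕ → ℝ) :
    ∑ j ∈ range N, ((1 - x) ^ U.card * ssq u U j) * c j ^ 2 ≤ ∑ j ∈ range N, ∑ k ∈ range N, c j * c k * hx u U j k x := by
  rw [hx_form]
  refine le_trans (le_of_eq ?_) (RFS53.qt_ge x h0 h1 U _)
  have e : ∀ j ∈ range N, ((1 - x) ^ U.card * ssq u U j) * c j ^ 2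
      = (1 - x) ^ U.card * ∑ C ∈ U.powerset, if C.card = j then (c C.card * wt u C) ^ 2 else 0 := by
    intro j _
    rw [ssq, sum_powersetCard_eq, mul_assoc, sum_mul]
    congr 1
    refine sum_congr rfl fun C _ => ?_
    split_ifs with h
    · rw [h]; ring
    · ring
  rw [sum_congr rfl e, ← mul_sum, sum_comm]
  congr 1
  refine sum_congr rfl fun C _ => ?_
  by_cases hC : C.card < N
  · rw [if_pos hC, sum_eq_single_of_mem C.card (mem_range.2 hC)]
    · simp
    · intro j _ hj
      rw [if_neg fun h => hj h.symm]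
  · rw [if_neg hC]
    refine (sum_eq_zero fun j hj => ?_).trans (by ring)
    rw [if_neg]
    rintro rfl
    exact hC (mem_range.1 hj)

/-- product of a matrix bounded below by a diagonal one and an x-kernel -/
theorem prod_lower (M : ℕ → ℕ → ℝ) (N : ℕ) (d : ℕ → ℝ) (hd : ∀ j, 0 ≤ d j)
    (hM : ∀ c : ℕ → ℝ, ∑ j ∈ range N, d j * c j ^ 2 ≤ ∑ j ∈ range N, ∑ k ∈ range N, c j * c k * M j k)
    (w : α → ℝ) (W : Finset α) (x : ℝ) (h0 : 0 ≤ x) (h1 : x ≤ 1) (c : ℕ → ℝ) :
    ∑ j ∈ range N, (d j * ((1 - x) ^ W.card * ssq w W j)) * c j ^ 2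
      ≤ ∑ j ∈ range N, ∑ k ∈ range N, c j * c k * (M j k * hx w W j k x) := by
  set F : ℕ → Finset α → ℝ := fun j A => if A.card = j then c j * wt w A else 0 with hF
  have q1 := qM_nonneg (fun j k => M j k - if j = k then d j else 0) N (fun c => by
    have h := hM c
    have e : ∑ j ∈ range N, ∑ k ∈ range N, c j * c k * (M j k - if j = k then d j else 0)
        = (∑ j ∈ range N, ∑ k ∈ range N, c j * c k * M j k) - ∑ j ∈ range N, d j * c j ^ 2 := by
      rw [← sum_sub_distrib]
      refine sum_congr rfl fun j hj => ?_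
      have e2 : d j * c j ^ 2 = ∑ k ∈ range N, if j = k then d j * c j ^ 2 else 0 := by
        rw [sum_ite_eq, if_pos hj]
      rw [e2, ← sum_sub_distrib]
      refine sum_congr rfl fun k _ => ?_
      split_ifs with h
      · subst h; ring
      · ring
    rw [e]; linarith) x h0 h1 W F
  have hFF : ∀ j k, ∑ A ∈ W.powerset, ∑ B ∈ W.powerset, F j A * F k B * x ^ (symmDiff A B).card
      = c j * c k * hx w W j k x := by
    intro j k
    rw [hx, sum2_powersetCard, mul_sum]
    refine sum_congr rfl fun A _ => ?_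
    rw [mul_sum]
    refine sum_congr rfl fun B _ => ?_
    simp only [hF]
    by_cases hA : A.card = j <;> by_cases hB : B.card = k <;> simp [hA, hB] <;> ring
  unfold qM at q1
  simp only [hFF] at q1
  have e3 : ∑ j ∈ range N, ∑ k ∈ range N, (M j k - if j = k then d j else 0) * (c j * c k * hx w W j k x)
      = (∑ j ∈ range N, ∑ k ∈ range N, c j * c k * (M j k * hx w W j k x))
        - ∑ j ∈ range N, d j * (c j * c j * hx w W j j x) := by
    rw [← sum_sub_distrib]
    refine sum_congr rfl fun j hj => ?_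
    have e2 : d j * (c j * c j * hx w W j j x) = ∑ k ∈ range N, if j = k then d j * (c j * c j * hx w W j j x) else 0 := by
      rw [sum_ite_eq, if_pos hj]
    rw [e2, ← sum_sub_distrib]
    refine sum_congr rfl fun k _ => ?_
    split_ifs with h
    · subst h; ring
    · ring
  rw [e3] at q1
  refine le_trans ?_ (sub_nonneg.1 q1)
  refine sum_le_sum fun j _ => ?_
  rw [mul_assoc]
  refine mul_le_mul_of_nonneg_left ?_ (hd j)
  have q2 := RFS53.qt_ge x h0 h1 W (F j)
  unfold qt at q2
  rw [hFF] at q2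
  refine le_trans (le_of_eq ?_) q2
  rw [ssq, sum_powersetCard_eq, mul_assoc, sum_mul]
  congr 1
  refine sum_congr rfl fun A _ => ?_
  simp only [hF]
  split_ifs <;> ring

/-- positive definiteness of a block -/
theorem block_pd (M : ℕ → ℕ → ℝ → ℝ) (hMc : ∀ j k, Continuous (M j k)) (N : ℕ) (s : ℕ → ℝ) (hs : ∀ j, 0 ≤ s j)
    (hs' : ∀ j, j < N → 0 < s j) (p : ℕ)
    (hM : ∀ x : ℝ, 0 ≤ x → x ≤ 1 → ∀ c : ℕ → ℝ, ∑ j ∈ range N, ((1 - x) ^ p * s j) * c j ^ 2
      ≤ ∑ j ∈ range N, ∑ k ∈ range N, c j * c k * M j k x)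
    (w : α → ℝ) (hw : ∀ a, 0 < w a) (V : Finset α) (hV : V.card = N) (c : ℕ → ℝ) (hc : ∃ j, j < N ∧ c j ≠ 0) :
    0 < ∑ j ∈ range N, ∑ k ∈ range N, c j * c k * ∫ x in (0 : ℝ)..1, 2 * M j k x * gL w V (j + 1) k x := by
  obtain ⟨j0, hj0, hcj⟩ := hc
  set K : ℝ := ∑ l ∈ V, 2 * w l * ∑ j ∈ range N, s j * ssq w (V.erase l) j * c j ^ 2 with hK
  have hVne : V.Nonempty := by
    rw [← card_pos]; omega
  have hKpos : 0 < K := by
    refine Finset.sum_pos (fun l hl => ?_) hVne
    refine mul_pos (mul_pos two_pos (hw l)) ?_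
    refine Finset.sum_pos' (fun j _ => mul_nonneg (mul_nonneg (hs j) (ssq_nonneg _ _ _)) (sq_nonneg _))
      ⟨j0, mem_range.2 hj0, ?_⟩
    refine mul_pos (mul_pos (hs' j0 hj0) (ssq_pos hw ?_)) (by positivity)
    rw [card_erase_of_mem hl]; omega
  have hcont : ∀ j k, Continuous (fun x : ℝ => 2 * M j k x * gL w V (j + 1) k x) := by
    intro j k
    have h1 := hMc j k
    have h2 := gL_cont w V (j + 1) k
    fun_prop
  have hint : ∑ j ∈ range N, ∑ k ∈ range N, c j * c k * ∫ x in (0 : ℝ)..1, 2 * M j k x * gL w V (j + 1) k x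
      = ∫ x in (0 : ℝ)..1, ∑ j ∈ range N, ∑ k ∈ range N, c j * c k * (2 * M j k x * gL w V (j + 1) k x) := by
    rw [intervalIntegral.integral_finsetSum]
    · refine sum_congr rfl fun j _ => ?_
      rw [intervalIntegral.integral_finsetSum]
      · refine sum_congr rfl fun k _ => ?_
        rw [intervalIntegral.integral_const_mul]
      · intro k _
        exact ((hcont j k).const_mul _).intervalIntegrable _ _
    · intro j _
      exact (continuous_finsetSum _ fun k _ => (hcont j k).const_mul _).intervalIntegrable _ _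
  rw [hint]
  have hlow : ∀ x : ℝ, 0 ≤ x → x ≤ 1 → x * (1 - x) ^ (p + (N - 1)) * K
      ≤ ∑ j ∈ range N, ∑ k ∈ range N, c j * c k * (2 * M j k x * gL w V (j + 1) k x) := by
    intro x h0 h1
    have e1 : ∑ j ∈ range N, ∑ k ∈ range N, c j * c k * (2 * M j k x * gL w V (j + 1) k x)
        = ∑ l ∈ V, (2 * w l * x) * ∑ j ∈ range N, ∑ k ∈ range N, c j * c k * (M j k x * hx w (V.erase l) j k x) := by
      simp only [gL_eq, mul_sum]
      rw [sum_comm' (s := V) (t := fun _ => range N) (t' := range N) (s' := fun _ => V) (by simp [and_comm])]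
      refine sum_congr rfl fun j _ => ?_
      rw [sum_comm]
      refine sum_congr rfl fun k _ => sum_congr rfl fun l _ => ?_
      ring
    rw [e1, hK, mul_sum]
    refine sum_le_sum fun l hl => ?_
    have q := prod_lower (fun j k => M j k x) N (fun j => (1 - x) ^ p * s j)
      (fun j => mul_nonneg (pow_nonneg (sub_nonneg.2 h1) _) (hs j)) (hM x h0 h1) w (V.erase l) x h0 h1 c
    have e2 : x * (1 - x) ^ (p + (N - 1)) * (2 * w l * ∑ j ∈ range N, s j * ssq w (V.erase l) j * c j ^ 2)
        = 2 * w l * x * ∑ j ∈ range N, ((1 - x) ^ p * s j * ((1 - x) ^ (V.erase l).card * ssq w (V.erase l) j)) * c j ^ 2 := by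
      rw [card_erase_of_mem hl, hV, mul_sum, mul_sum, mul_sum]
      refine sum_congr rfl fun j _ => ?_
      rw [pow_add]
      ring
    rw [e2]
    exact mul_le_mul_of_nonneg_left q (by have := (hw l).le; positivity)
  have h1 : ∫ x in (0 : ℝ)..1, x * (1 - x) ^ (p + (N - 1)) * K
      ≤ ∫ x in (0 : ℝ)..1, ∑ j ∈ range N, ∑ k ∈ range N, c j * c k * (2 * M j k x * gL w V (j + 1) k x) := by
    refine intervalIntegral.integral_mono_on (by norm_num)
      (Continuous.intervalIntegrable (by fun_prop) _ _) ?_ ?_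
    · exact (continuous_finsetSum _ fun j _ => continuous_finsetSum _ fun k _ => (hcont j k).const_mul _).intervalIntegrable _ _
    · intro x hx
      exact hlow x hx.1 hx.2
  refine lt_of_lt_of_le ?_ h1
  rw [intervalIntegral.integral_mul_const]
  refine mul_pos ?_ hKpos
  refine intervalIntegral.intervalIntegral_pos_of_pos_on
    (Continuous.intervalIntegrable (by fun_prop) _ _) ?_ (by norm_num)
  intro x hx
  exact mul_pos hx.1 (pow_pos (sub_pos.mpr hx.2) _)

theorem fin_sum_eq (n : ℕ) (c : Fin n → ℝ) (X : ℕ → ℕ → ℝ) :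
    ∑ j : Fin n, ∑ k : Fin n, c j * c k * X j k
      = ∑ j ∈ range n, ∑ k ∈ range n, (if h : j < n then c ⟨j, h⟩ else 0) * (if h : k < n then c ⟨k, h⟩ else 0) * X j k := by
  rw [Finset.sum_range]
  refine sum_congr rfl fun j _ => ?_
  rw [Finset.sum_range]
  refine sum_congr rfl fun k _ => ?_
  simp

theorem fin_ne (n : ℕ) (c : Fin n → ℝ) (hc : c ≠ 0) :
    ∃ j, j < n ∧ (if h : j < n then c ⟨j, h⟩ else 0) ≠ 0 := by
  obtain ⟨j, hj⟩ := Function.ne_iff.1 hc
  exact ⟨j, j.2, by simpa using hj⟩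

theorem E1_pd (w : α → ℝ) (hw : ∀ a, 0 < w a) (V : Finset α) (u : β → ℝ) (hu : ∀ b, 0 < u b) (U : Finset β)
    (hU : V.card ≤ U.card) (c : Fin V.card → ℝ) (hc : c ≠ 0) :
    0 < ∑ j : Fin V.card, ∑ k : Fin V.card, c j * c k * E1 (mom (hx u U)) w V j k := by
  rw [fin_sum_eq]
  simp only [E1_integral _ (hx_cont u U)]
  exact block_pd (hx u U) (hx_cont u U) V.card (ssq u U) (ssq_nonneg u U) (fun j hj => ssq_pos hu (by omega)) U.card
    (fun x h0 h1 c => hx_lower u U x h0 h1 V.card c) w hw V rfl _ (fin_ne _ c hc)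

theorem E2_pd (w : α → ℝ) (hw : ∀ a, 0 < w a) (V : Finset α) (u : β → ℝ) (hu : ∀ b, 0 < u b) (U : Finset β)
    (hU : U.card = V.card) (c : Fin V.card → ℝ) (hc : c ≠ 0) :
    0 < ∑ j : Fin V.card, ∑ k : Fin V.card, c j * c k * E2 w V u U j k := by
  rw [fin_sum_eq]
  unfold E2
  refine block_pd (fun j k => hx w V (j + 1) (k + 1)) (fun j k => hx_cont w V _ _) V.card (fun j => ssq w V (j + 1))
    (fun j => ssq_nonneg w V _) (fun j hj => ssq_pos hw (by omega)) V.card
    (fun x h0 h1 c => ?_) u hu U hU _ (fin_ne _ c hc)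
  have h := hx_lower w V x h0 h1 (V.card + 1) (fun j => if j = 0 then 0 else c (j - 1))
  rw [sum_range_succ' (n := V.card), sum_range_succ' (n := V.card)] at h
  simp only [sum_range_succ' (n := V.card)] at h
  simpa using h

/-- all the data of the metric -/
theorem repG (w : α → ℝ) (hw : ∀ a, 0 < w a) (V : Finset α) (u : β → ℝ) (hu : ∀ b, 0 < u b) (U : Finset β)
    (hU : U.card = V.card) (hW : HW w V u U V.card) (hN : HN w V u U V.card) :
    RFS53.RepG V.card (fun k => esy w V k) (fun k => esy w V k * esy u U k) (fun k => esy w V (k + 1) * esy u U k)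
      (E1 (mom (hx u U)) w V) (E2 w V u U) where
  hpos := fun k hk => esy_pos hw hk
  symm := fun j k => E1_symm w V u U j k
  symm' := fun j k => E2_symm w V u U j k
  top := fun k => E1_top u U k
  comp0 := fun k _ => E1_comp0 w V u U k
  comp := fun i k _ _ => E1_comp w V u U i k
  acc := fun c => acc_nonneg w hw V u U hW hN c
  pd := fun c hc => E1_pd w hw V u hu U hU.ge c hc
  pd' := fun c hc => E2_pd w hw V u hu U hU c hc

end RL2
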