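import Pool.Agent.RL2.DefsE

/-!
MP_3f3e0f_an: the recursion with an arbitrary multiplier: the form of level 0 (the coupling).
-/

set_option linter.unusedSimpArgs false

namespace RL2

open Finset RL1

variable {α : Type*} [DecidableEq α]

/-! ### two families -/

theorem ipL_diag (b : ℕ → ℝ) (G : Finset α) (K L : α → Finset α → ℝ) :
    ∑ z ∈ G, RL1C.ip b (G.erase z) (K z) (L z)
      = ∑ p ∈ idx G, ∑ q ∈ idx G, K p.1 p.2 * L q.1 q.2
          * (if p.1 = q.1 then b (symmDiff p.2 q.2).card else 0) := by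
  have := RL1C.pair_diag G (fun x A y B => K x A * L y B * b (symmDiff A B).card)
  unfold RL1C.ip
  rw [← this]
  refine Finset.sum_congr rfl fun p _ => Finset.sum_congr rfl fun q _ => ?_
  by_cases h : p.1 = q.1 <;> simp [h]

theorem ipL_zero (b : ℕ → ℝ) (G : Finset α) (K L : α → Finset α → ℝ) :
    ∑ x ∈ G, ∑ y ∈ G.erase x, RL1C.ip b ((G.erase x).erase y) (K x) (L y)
      = ∑ p ∈ idx G, ∑ q ∈ idx G, K p.1 p.2 * L q.1 q.2
          * (if p.1 ≠ q.1 ∧ p.1 ∉ q.2 ∧ q.1 ∉ p.2 then b (symmDiff p.2 q.2).card else 0) := by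
  have := RL1C.pair_zero_zero G (fun x A y B => K x A * L y B * b (symmDiff A B).card)
  unfold RL1C.ip
  rw [← this]
  refine Finset.sum_congr rfl fun p _ => Finset.sum_congr rfl fun q _ => ?_
  by_cases h : p.1 ≠ q.1 ∧ p.1 ∉ q.2 ∧ q.1 ∉ p.2
  · rw [if_pos h, if_pos h]
  · rw [if_neg h, if_neg h, mul_zero]

theorem ipL_one (b : ℕ → ℝ) (G : Finset α) (K L : α → Finset α → ℝ) :
    ∑ x ∈ G, ∑ y ∈ G.erase x, RL1C.ip b ((G.erase x).erase y)
        (fun A => K x (insert y A)) (fun A => L y (insert x A))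
      = ∑ p ∈ idx G, ∑ q ∈ idx G, K p.1 p.2 * L q.1 q.2
          * (if p.1 ≠ q.1 ∧ p.1 ∈ q.2 ∧ q.1 ∈ p.2 then
              b ((symmDiff p.2 q.2).card - 2) else 0) := by
  have := RL1C.pair_one_one G (fun x A y B => K x A * L y B * b ((symmDiff A B).card - 2))
  have e : ∑ p ∈ idx G, ∑ q ∈ idx G, K p.1 p.2 * L q.1 q.2
          * (if p.1 ≠ q.1 ∧ p.1 ∈ q.2 ∧ q.1 ∈ p.2 then
              b ((symmDiff p.2 q.2).card - 2) else 0)
      = ∑ p ∈ RL1C.D G, ∑ q ∈ RL1C.D G, (if p.1 ≠ q.1 ∧ p.1 ∈ q.2 ∧ q.1 ∈ p.2 then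
          K p.1 p.2 * L q.1 q.2 * b ((symmDiff p.2 q.2).card - 2) else 0) := by
    refine Finset.sum_congr rfl fun p _ => Finset.sum_congr rfl fun q _ => ?_
    by_cases h : p.1 ≠ q.1 ∧ p.1 ∈ q.2 ∧ q.1 ∈ p.2
    · rw [if_pos h, if_pos h]
    · rw [if_neg h, if_neg h, mul_zero]
  rw [e, this]
  refine Finset.sum_congr rfl fun x hx => Finset.sum_congr rfl fun y hy => ?_
  unfold RL1C.ip
  refine Finset.sum_congr rfl fun A hA => Finset.sum_congr rfl fun B hB => ?_
  rw [mem_erase] at hy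
  simp only [mem_powerset, subset_erase] at hA hB
  rw [RL1C.card_sd_cross (Ne.symm hy.1) hA.1.2 hA.2 hB.1.2 hB.2, Nat.add_sub_cancel]

theorem ipL_triple (b : ℕ → ℝ) (G : Finset α) (K L : α → Finset α → ℝ) :
    ∑ x ∈ G, ∑ y ∈ G.erase x, ∑ z ∈ (G.erase x).erase y,
        RL1C.ip b (((G.erase x).erase y).erase z)
          (fun A => K x (insert y A)) (fun A => L y (insert z A))
      = ∑ p ∈ idx G, ∑ q ∈ idx G, K p.1 p.2 * L q.1 q.2
          * (if p.1 ≠ q.1 ∧ p.1 ∉ q.2 ∧ q.1 ∈ p.2 then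
              ((q.2 \ p.2).card : ℝ) * b ((symmDiff p.2 q.2).card - 2) else 0) := by
  have := RL1C.pair_one_zero G (fun x A y B => K x A * L y B *
    (((B \ A).card : ℝ) * b ((symmDiff A B).card - 2)))
  have e : ∑ p ∈ idx G, ∑ q ∈ idx G, K p.1 p.2 * L q.1 q.2
          * (if p.1 ≠ q.1 ∧ p.1 ∉ q.2 ∧ q.1 ∈ p.2 then
              ((q.2 \ p.2).card : ℝ) * b ((symmDiff p.2 q.2).card - 2) else 0)
      = ∑ p ∈ RL1C.D G, ∑ q ∈ RL1C.D G, (if p.1 ≠ q.1 ∧ p.1 ∉ q.2 ∧ q.1 ∈ p.2 then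
          K p.1 p.2 * L q.1 q.2 *
            (((q.2 \ p.2).card : ℝ) * b ((symmDiff p.2 q.2).card - 2)) else 0) := by
    refine Finset.sum_congr rfl fun p _ => Finset.sum_congr rfl fun q _ => ?_
    by_cases h : p.1 ≠ q.1 ∧ p.1 ∉ q.2 ∧ q.1 ∈ p.2
    · rw [if_pos h, if_pos h]
    · rw [if_neg h, if_neg h, mul_zero]
  rw [e, this]
  refine Finset.sum_congr rfl fun x hx => Finset.sum_congr rfl fun y hy => ?_
  rw [RL1C.sum_ip_insert b ((G.erase x).erase y) (fun A => K x (insert y A)) (L y)]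
  refine Finset.sum_congr rfl fun A hA => Finset.sum_congr rfl fun B hB => ?_
  rw [mem_erase] at hy
  simp only [mem_powerset, subset_erase] at hA hB
  have h1 : B \ insert y A = B \ A := by
    ext w; simp only [mem_sdiff, mem_insert, not_or]
    exact ⟨fun h => ⟨h.1, h.2.2⟩, fun h => ⟨h.1, fun e => hB.2 (e ▸ h.1), h.2⟩⟩
  have h2 : (symmDiff (insert y A) B).card - 2 = (symmDiff A B).card - 1 := by
    rw [RL1C.sd_comm, RL1C.card_sd_insert hB.2 hA.2, RL1C.sd_comm]
    omega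
  rw [h1, h2]

/-! ### kernel form -/

/-- the kernel of level `r` -/
noncomputable def kapG (m : ℕ → ℕ → ℕ → ℕ → ℝ) (r j k : ℕ) (p q : α × Finset α) : ℝ :=
  ((r : ℝ) + 1) ^ 2 * (if p.1 = q.1 then m r j k (symmDiff p.2 q.2).card else 0)
  + ((r : ℝ) + 1) * (if p.1 ≠ q.1 ∧ p.1 ∉ q.2 ∧ q.1 ∉ p.2 then m r j k (symmDiff p.2 q.2).card else 0)
  + (if p.1 ≠ q.1 ∧ p.1 ∈ q.2 ∧ q.1 ∈ p.2 then nn m r j k ((symmDiff p.2 q.2).card - 2) else 0)
  + 2 * (if p.1 ≠ q.1 ∧ p.1 ∉ q.2 ∧ q.1 ∈ p.2 then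
      ((q.2 \ p.2).card : ℝ) * m (r + 1) j k ((symmDiff p.2 q.2).card - 2) else 0)

theorem sum_out {ι : Type*} (s : Finset ι) (N : ℕ) (f : ι → ℕ → ℕ → ℝ) :
    ∑ x ∈ s, ∑ j ∈ range N, ∑ k ∈ range N, f x j k = ∑ j ∈ range N, ∑ k ∈ range N, ∑ x ∈ s, f x j k := by
  rw [sum_comm]
  exact sum_congr rfl fun j _ => sum_comm

/-- kernel form of `QG`, any family, any level -/
theorem QG_eq_ker (m : ℕ → ℕ → ℕ → ℕ → ℝ) (N r : ℕ) (V : Finset α) (K : ℕ → α → Finset α → ℝ) :
    QG m N r V K = ∑ j ∈ range N, ∑ k ∈ range N, ∑ p ∈ idx V, ∑ q ∈ idx V,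
      K j p.1 p.2 * K k q.1 q.2 * kapG m r j k p q := by
  have h1 : ∀ j k, ∑ p ∈ idx V, ∑ q ∈ idx V, K j p.1 p.2 * K k q.1 q.2 * kapG m r j k p q
      = ((r : ℝ) + 1) ^ 2 * ∑ z ∈ V, RL1C.ip (m r j k) (V.erase z) (K j z) (K k z)
        + ((r : ℝ) + 1) * ∑ x ∈ V, ∑ y ∈ V.erase x, RL1C.ip (m r j k) ((V.erase x).erase y) (K j x) (K k y)
        + ∑ x ∈ V, ∑ y ∈ V.erase x, RL1C.ip (nn m r j k) ((V.erase x).erase y)
            (fun A => K j x (insert y A)) (fun A => K k y (insert x A))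
        + 2 * ∑ x ∈ V, ∑ y ∈ V.erase x, ∑ z ∈ (V.erase x).erase y,
            RL1C.ip (m (r + 1) j k) (((V.erase x).erase y).erase z)
              (fun A => K j x (insert y A)) (fun A => K k y (insert z A)) := by
    intro j k
    rw [ipL_diag, ipL_zero, ipL_one, ipL_triple]
    simp only [mul_sum, ← sum_add_distrib]
    refine sum_congr rfl fun p _ => sum_congr rfl fun q _ => ?_
    rw [kapG]
    ring
  simp only [h1, QG, tip]
  simp only [sum_out, sum_add_distrib, mul_sum]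

/-! ### the pointwise identity -/

/-- the coupling function -/
noncomputable def ph (m : ℕ → ℕ → ℕ → ℕ → ℝ) (j k : ℕ) (X Y : Finset α) : ℝ :=
  ((X \ Y).card : ℝ) * m 0 j k ((symmDiff X Y).card - 1)

theorem ph_out (m : ℕ → ℕ → ℕ → ℕ → ℝ) (j k : ℕ) {a : α} {A B : Finset α} (hA : a ∉ A) (hB : a ∉ B) :
    ph m j k (insert a A) B = (((A \ B).card : ℝ) + 1) * m 0 j k (symmDiff A B).card := by
  have h1 : (insert a A \ B).card = (A \ B).card + 1 := by
    rw [insert_sdiff_of_notMem _ hB, card_insert_of_notMem (fun h => hA (mem_sdiff.1 h).1)]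
  have h2 : (symmDiff (insert a A) B).card = (symmDiff A B).card + 1 := by
    rw [RL1C.sd_comm, RL1C.card_sd_insert hB hA, RL1C.sd_comm]
  rw [ph, h1, h2, Nat.add_sub_cancel]
  push_cast
  ring

theorem ph_in (m : ℕ → ℕ → ℕ → ℕ → ℝ) (j k : ℕ) {a : α} {A B : Finset α} (hA : a ∉ A) (hB : a ∈ B) :
    ph m j k (insert a A) B = ((A \ B).card : ℝ) * m 0 j k ((symmDiff A B).card - 2) := by
  have h1 : insert a A \ B = A \ B := insert_sdiff_of_mem _ hB
  have h2 : (symmDiff (insert a A) B).card + 1 = (symmDiff A B).card := by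
    rw [RL1C.sd_comm, RL1C.sd_comm A B]
    exact RL1C.card_sd_insert' hB hA
  rw [ph, h1, ← h2]
  rfl

/-- **pointwise identity of the coupling** -/
theorem kapG_sym (m : ℕ → ℕ → ℕ → ℕ → ℝ) (hm : Rel m) (j k : ℕ) {a b : α} {A B : Finset α} (ha : a ∉ A) (hb : b ∉ B) :
    kapG m 0 j k (a, A) (b, B) + kapG m 0 k j (b, B) (a, A)
      = 2 * (ph m j k (insert a A) B + ph m k j (insert b B) A
        - (((symmDiff A B).card : ℝ) + 1) * m 0 j k (symmDiff A B).card) := by
  have hs : (symmDiff B A).card = (symmDiff A B).card := RL1C.sd_comm B A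
  have hR : ((symmDiff A B).card : ℝ) = ((A \ B).card : ℝ) + ((B \ A).card : ℝ) := by
    rw [RL1C.card_sd]; push_cast; ring
  have hsy : ∀ r S, m r k j S = m r j k S := fun r S => hm.2 r k j S
  by_cases haB : a ∈ B
  · have hab : a ≠ b := fun e => hb (e ▸ haB)
    by_cases hbA : b ∈ A
    · have hp1 : 1 ≤ (B \ A).card := card_pos.2 ⟨a, mem_sdiff.2 ⟨haB, ha⟩⟩
      have hp2 : 1 ≤ (A \ B).card := card_pos.2 ⟨b, mem_sdiff.2 ⟨hbA, hb⟩⟩
      obtain ⟨s, hs2⟩ : ∃ s, (symmDiff A B).card = s + 2 :=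
        ⟨(symmDiff A B).card - 2, by rw [RL1C.card_sd]; omega⟩
      rw [ph_in m j k ha haB, ph_in m k j hb hbA, hs]
      simp only [kapG, haB, hbA, ha, hb, hab, hab.symm, hs, hs2, Nat.add_sub_cancel, if_true, if_false,
        and_self, not_true_eq_false, not_false_eq_true, and_false, and_true, ne_eq, nn, hsy]
      have h1 := hm.1 0 j k s
      rw [zero_add] at h1
      rw [zero_add, h1]
      rw [hs2] at hR
      push_cast at hR ⊢
      linear_combination (2 * m 0 j k s) * hR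
    · rw [ph_in m j k ha haB, ph_out m k j hb hbA, hs]
      simp only [kapG, haB, hbA, ha, hb, hab, hab.symm, hs, if_true, if_false,
        and_self, not_true_eq_false, not_false_eq_true, and_false, and_true, ne_eq, hsy, zero_add, false_and, true_and]
      by_cases h0 : (A \ B).card = 0
      · rw [h0] at hR ⊢
        push_cast at hR ⊢
        rw [hR]
        ring
      · have hp1 : 1 ≤ (B \ A).card := card_pos.2 ⟨a, mem_sdiff.2 ⟨haB, ha⟩⟩
        obtain ⟨s, hs2⟩ : ∃ s, (symmDiff A B).card = s + 2 :=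
          ⟨(symmDiff A B).card - 2, by rw [RL1C.card_sd]; omega⟩
        have h1 := hm.1 0 j k s
        rw [zero_add] at h1
        rw [hs2, Nat.add_sub_cancel, h1]
        rw [hs2] at hR
        push_cast at hR ⊢
        linear_combination (2 * m 0 j k (s + 2)) * hR
  · by_cases hbA : b ∈ A
    · have hab : a ≠ b := fun e => ha (e ▸ hbA)
      rw [ph_out m j k ha haB, ph_in m k j hb hbA, hs]
      simp only [kapG, haB, hbA, ha, hb, hab, hab.symm, hs, if_true, if_false,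
        and_self, not_true_eq_false, not_false_eq_true, and_false, and_true, ne_eq, hsy, zero_add, false_and, true_and]
      by_cases h0 : (B \ A).card = 0
      · rw [h0] at hR ⊢
        push_cast at hR ⊢
        rw [hR]
        ring
      · have hp1 : 1 ≤ (A \ B).card := card_pos.2 ⟨b, mem_sdiff.2 ⟨hbA, hb⟩⟩
        obtain ⟨s, hs2⟩ : ∃ s, (symmDiff A B).card = s + 2 :=
          ⟨(symmDiff A B).card - 2, by rw [RL1C.card_sd]; omega⟩
        have h1 := hm.1 0 j k s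
        rw [zero_add] at h1
        rw [hs2, Nat.add_sub_cancel, h1]
        rw [hs2] at hR
        push_cast at hR ⊢
        linear_combination (2 * m 0 j k (s + 2)) * hR
    · rw [ph_out m j k ha haB, ph_out m k j hb hbA, hs]
      by_cases hab : a = b
      · subst hab
        simp only [kapG, haB, hbA, hs, if_true, if_false,
          and_self, not_true_eq_false, not_false_eq_true, and_false, and_true, ne_eq, hsy, zero_add, false_and, true_and]
        push_cast
        linear_combination (2 * m 0 j k (symmDiff A B).card) * hR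
      · simp only [kapG, haB, hbA, hab, Ne.symm hab, hs, if_true, if_false,
          and_self, not_true_eq_false, not_false_eq_true, and_false, and_true, ne_eq, hsy, zero_add, false_and, true_and]
        push_cast
        linear_combination (2 * m 0 j k (symmDiff A B).card) * hR

/-! ### sums over the family -/

theorem idx_out2 (w : α → ℝ) (γ : ℕ → ℝ) (V : Finset α) (j : ℕ) (G : Finset α → ℝ) :
    ∑ p ∈ idx V, Kg w γ 0 V j p.1 p.2 * G p.2
      = γ j * esy w V (j + 1) * ∑ A ∈ V.powersetCard j, wt w A * G A := by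
  simp only [Kg]
  rw [idx_out]
  by_cases hj : j ∈ range (V.card + 1)
  · rw [sum_eq_single j]
    · simp
    · intro p _ hp
      simp [hp]
    · intro h; exact absurd hj h
  · rw [powersetCard_eq_empty.2 (by rw [mem_range] at hj; omega), sum_empty, mul_zero]
    refine sum_eq_zero fun p hp => ?_
    have : p ≠ j := fun e => hj (e ▸ hp)
    simp [this]

theorem idx_in2 (w : α → ℝ) (γ : ℕ → ℝ) (V : Finset α) (j : ℕ) (G : Finset α → ℝ) :
    ∑ p ∈ idx V, Kg w γ 0 V j p.1 p.2 * G (insert p.1 p.2)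
      = γ j * esy w V j * ∑ A ∈ V.powersetCard (j + 1), wt w A * G A := by
  simp only [Kg]
  rw [idx_in]
  by_cases hj : j ∈ range (V.card + 1)
  · rw [sum_eq_single j]
    · simp
    · intro p _ hp
      simp [hp]
    · intro h; exact absurd hj h
  · rw [powersetCard_eq_empty.2 (by rw [mem_range] at hj; omega), sum_empty, mul_zero]
    refine sum_eq_zero fun p hp => ?_
    have : p ≠ j := fun e => hj (e ▸ hp)
    simp [this]

theorem T1_eq2 (m : ℕ → ℕ → ℕ → ℕ → ℝ) (w : α → ℝ) (γ : ℕ → ℝ) (V : Finset α) (j k : ℕ) :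
    ∑ p ∈ idx V, ∑ q ∈ idx V, Kg w γ 0 V j p.1 p.2 * Kg w γ 0 V k q.1 q.2 * ph m j k (insert p.1 p.2) q.2
      = γ j * γ k * (esy w V j * esy w V (k + 1) * E1 m w V j k) := by
  have h1 : ∀ p ∈ idx V, ∑ q ∈ idx V, Kg w γ 0 V j p.1 p.2 * Kg w γ 0 V k q.1 q.2 * ph m j k (insert p.1 p.2) q.2
      = Kg w γ 0 V j p.1 p.2 * (fun X => γ k * esy w V (k + 1)
        * ∑ B ∈ V.powersetCard k, wt w B * ph m j k X B) (insert p.1 p.2) := by
    intro p _
    simp only
    rw [← idx_out2 w γ V k (fun B => ph m j k (insert p.1 p.2) B), mul_sum]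
    refine sum_congr rfl fun q _ => ?_
    ring
  rw [sum_congr rfl h1, idx_in2 w γ V j (fun X => γ k * esy w V (k + 1)
        * ∑ B ∈ V.powersetCard k, wt w B * ph m j k X B)]
  simp only [E1, mul_sum]
  refine sum_congr rfl fun A _ => sum_congr rfl fun B _ => ?_
  rw [ph]
  ring

theorem T3_eq2 (m : ℕ → ℕ → ℕ → ℕ → ℝ) (w : α → ℝ) (γ : ℕ → ℝ) (V : Finset α) (j k : ℕ) :
    ∑ p ∈ idx V, ∑ q ∈ idx V, Kg w γ 0 V j p.1 p.2 * Kg w γ 0 V k q.1 q.2
        * ((((symmDiff p.2 q.2).card : ℝ) + 1) * m 0 j k (symmDiff p.2 q.2).card)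
      = γ j * γ k * (esy w V (j + 1) * esy w V (k + 1) * N0 m w V j k) := by
  have h1 : ∀ p ∈ idx V, ∑ q ∈ idx V, Kg w γ 0 V j p.1 p.2 * Kg w γ 0 V k q.1 q.2
        * ((((symmDiff p.2 q.2).card : ℝ) + 1) * m 0 j k (symmDiff p.2 q.2).card)
      = Kg w γ 0 V j p.1 p.2 * (fun X => γ k * esy w V (k + 1)
        * ∑ B ∈ V.powersetCard k, wt w B * ((((symmDiff X B).card : ℝ) + 1) * m 0 j k (symmDiff X B).card)) p.2 := by
    intro p _
    simp only
    rw [← idx_out2 w γ V k (fun B => (((symmDiff p.2 B).card : ℝ) + 1) * m 0 j k (symmDiff p.2 B).card), mul_sum]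
    refine sum_congr rfl fun q _ => ?_
    ring
  rw [sum_congr rfl h1, idx_out2 w γ V j (fun X => γ k * esy w V (k + 1)
        * ∑ B ∈ V.powersetCard k, wt w B * ((((symmDiff X B).card : ℝ) + 1) * m 0 j k (symmDiff X B).card))]
  simp only [N0, mul_sum]
  refine sum_congr rfl fun A _ => sum_congr rfl fun B _ => ?_
  ring

/-- the form of level 0: `a_j a_{j+1} a_k a_{k+1} ((T_j + T_k) M - ...)` -/
theorem form_eq2 (m : ℕ → ℕ → ℕ → ℕ → ℝ) (hm : Rel m) (w : α → ℝ) (γ : ℕ → ℝ) (N : ℕ) (V : Finset α) :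
    QG m N 0 V (Kg w γ 0 V) = ∑ j ∈ range N, ∑ k ∈ range N, γ j * γ k *
      (esy w V j * esy w V (k + 1) * E1 m w V j k + esy w V k * esy w V (j + 1) * E1 m w V k j
        - esy w V (j + 1) * esy w V (k + 1) * N0 m w V j k) := by
  have h1 : QG m N 0 V (Kg w γ 0 V) = ∑ j ∈ range N, ∑ k ∈ range N, ∑ p ∈ idx V, ∑ q ∈ idx V,
      Kg w γ 0 V j p.1 p.2 * Kg w γ 0 V k q.1 q.2 * kapG m 0 k j q p := by
    rw [QG_eq_ker, sum_comm]
    refine sum_congr rfl fun j _ => sum_congr rfl fun k _ => ?_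
    rw [sum_comm]
    refine sum_congr rfl fun p _ => sum_congr rfl fun q _ => ?_
    ring
  have h2 : 2 * QG m N 0 V (Kg w γ 0 V) = ∑ j ∈ range N, ∑ k ∈ range N, 2 *
      (γ j * γ k * (esy w V j * esy w V (k + 1) * E1 m w V j k + esy w V k * esy w V (j + 1) * E1 m w V k j
        - esy w V (j + 1) * esy w V (k + 1) * N0 m w V j k)) := by
    rw [two_mul]
    nth_rewrite 2 [h1]
    rw [QG_eq_ker]
    simp only [← sum_add_distrib]
    refine sum_congr rfl fun j _ => sum_congr rfl fun k _ => ?_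
    have e1 := T1_eq2 m w γ V j k
    have e2 := T1_eq2 m w γ V k j
    rw [sum_comm] at e2
    have e3 := T3_eq2 m w γ V j k
    have e4 : 2 * (γ j * γ k * (esy w V j * esy w V (k + 1) * E1 m w V j k + esy w V k * esy w V (j + 1) * E1 m w V k j
        - esy w V (j + 1) * esy w V (k + 1) * N0 m w V j k))
        = 2 * (γ j * γ k * (esy w V j * esy w V (k + 1) * E1 m w V j k))
          + 2 * (γ k * γ j * (esy w V k * esy w V (j + 1) * E1 m w V k j))
          - 2 * (γ j * γ k * (esy w V (j + 1) * esy w V (k + 1) * N0 m w V j k)) := by ring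
    rw [e4, ← e1, ← e2, ← e3]
    simp only [mul_sum, ← sum_add_distrib, ← sum_sub_distrib]
    refine sum_congr rfl fun p hp => sum_congr rfl fun q hq => ?_
    obtain ⟨a, A⟩ := p
    obtain ⟨b, B⟩ := q
    have h := kapG_sym m hm j k (mem_filter.1 hp).2 (mem_filter.1 hq).2
    simp only at h ⊢
    linear_combination (Kg w γ 0 V j a A * Kg w γ 0 V k b B) * h
  simp only [← mul_sum] at h2
  exact mul_left_cancel₀ two_ne_zero h2

end RL2
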