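import Pool.Agent.RL1.LemC
import Pool.Agent.RL1.Phi

/-!
MP_3f3e0f_an: the recursion of RL1 with an arbitrary multiplier: definitions.
`m r j k S = ∫_0^1 (1 - x^2)^r x^S dmu_{jk}(x)` are the moments of a symmetric matrix of measures; the only
relation used is `m (r + 1) j k S = m r j k S - m r j k (S + 2)`.
Functions carry the level index `j` as first argument.
-/

namespace RL2

open Finset RL1

variable {α : Type*} [DecidableEq α]

/-- the relation between the moments -/
def Rel (m : ℕ → ℕ → ℕ → ℕ → ℝ) : Prop :=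
  (∀ r j k S, m (r + 1) j k S = m r j k S - m r j k (S + 2)) ∧ (∀ r j k S, m r j k S = m r k j S)

/-- the bilinear form of level-indexed functions -/
noncomputable def tip (m : ℕ → ℕ → ℕ → ℕ → ℝ) (N r : ℕ) (W : Finset α) (F G : ℕ → Finset α → ℝ) : ℝ :=
  ∑ j ∈ range N, ∑ k ∈ range N, RL1C.ip (m r j k) W (F j) (G k)

/-- the kernel of the terms with both points inside -/
noncomputable def nn (m : ℕ → ℕ → ℕ → ℕ → ℝ) (r j k S : ℕ) : ℝ :=
  ((S : ℝ) + 2 * r + 3) * m (r + 1) j k S - ((r : ℝ) + 1) * m r j k S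

/-- the family of level `r`, split by the level index -/
noncomputable def Kg (w : α → ℝ) (γ : ℕ → ℝ) (r : ℕ) (V : Finset α) (j : ℕ) (a : α) (A : Finset α) : ℝ :=
  Kf w (fun p => if p = j then γ j else 0) r V a A

/-- the quadratic form of level `r` of a family of level-indexed functions -/
noncomputable def QG (m : ℕ → ℕ → ℕ → ℕ → ℝ) (N r : ℕ) (V : Finset α) (K : ℕ → α → Finset α → ℝ) : ℝ :=
  ((r : ℝ) + 1) ^ 2 * ∑ a ∈ V, tip m N r (V.erase a) (fun j => K j a) (fun j => K j a)
  + ((r : ℝ) + 1) * ∑ a ∈ V, ∑ b ∈ V.erase a, tip m N r ((V.erase a).erase b) (fun j => K j a) (fun j => K j b)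
  + ∑ a ∈ V, ∑ b ∈ V.erase a, tip (nn m) N r ((V.erase a).erase b)
      (fun j A => K j a (insert b A)) (fun j A => K j b (insert a A))
  + 2 * ∑ x ∈ V, ∑ y ∈ V.erase x, ∑ z ∈ (V.erase x).erase y,
      tip m N (r + 1) (((V.erase x).erase y).erase z) (fun j A => K j x (insert y A)) (fun j A => K j y (insert z A))

/-- the part of `QG` which is left after the recursion: squares, and the terms with the kernel `nn m` -/
noncomputable def SQ (m : ℕ → ℕ → ℕ → ℕ → ℝ) (w : α → ℝ) (N r : ℕ) (V : Finset α) (K : ℕ → α → Finset α → ℝ) : ℝ :=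
  ((r : ℝ) + 1) ^ 2 * ∑ a ∈ V, tip m N r (V.erase a) (fun j => K j a) (fun j => K j a)
  + ((r : ℝ) + 1) * ∑ a ∈ V, ∑ b ∈ V.erase a, w b / w a *
      tip m N r ((V.erase a).erase b) (fun j => K j a) (fun j => K j a)
  + ∑ a ∈ V, ∑ b ∈ V.erase a, w a / w b * tip (nn m) N r ((V.erase a).erase b)
      (fun j A => K j a (insert b A)) (fun j A => K j a (insert b A))
  + ∑ x ∈ V, ∑ y ∈ V.erase x, ∑ z ∈ (V.erase x).erase y, 1 / 2 * (
      w z / w x * tip m N (r + 1) (((V.erase x).erase y).erase z)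
        (fun j A => K j y (insert x A)) (fun j A => K j y (insert x A))
      + 2 * tip m N (r + 1) (((V.erase x).erase y).erase z)
        (fun j A => K j y (insert x A)) (fun j A => K j y (insert z A))
      + w x / w z * tip m N (r + 1) (((V.erase x).erase y).erase z)
        (fun j A => K j y (insert z A)) (fun j A => K j y (insert z A)))

end RL2
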