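import Pool.Agent.RL2.Defs
import Pool.Agent.RL1.Marg

/-!
MP_3f3e0f_an: definitions of the modules L2, M2, J2 (verbatim from the stubs).
-/

namespace RL2

open Finset RL1

variable {α : Type*} [DecidableEq α]

/-- `a_j a_k M(j,k)` -/
noncomputable def E1 (m : ℕ → ℕ → ℕ → ℕ → ℝ) (w : α → ℝ) (V : Finset α) (j k : ℕ) : ℝ :=
  ∑ A ∈ V.powersetCard (j + 1), ∑ B ∈ V.powersetCard k,
    wt w A * wt w B * (((A \ B).card : ℝ) * m 0 j k ((symmDiff A B).card - 1))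

noncomputable def N0 (m : ℕ → ℕ → ℕ → ℕ → ℝ) (w : α → ℝ) (V : Finset α) (j k : ℕ) : ℝ :=
  ∑ A ∈ V.powersetCard j, ∑ B ∈ V.powersetCard k,
    wt w A * wt w B * ((((symmDiff A B).card : ℝ) + 1) * m 0 j k (symmDiff A B).card)

/-- moments of `2 x P_x dx` -/
noncomputable def mom (P : ℕ → ℕ → ℝ → ℝ) (r j k S : ℕ) : ℝ := ∫ x in (0 : ℝ)..1, 2 * x * P j k x * ((1 - x ^ 2) ^ r * x ^ S)

/-- the x-kernel of a chain with weights `u` on `U`, not normalised -/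
noncomputable def hx {β : Type*} [DecidableEq β] (u : β → ℝ) (U : Finset β) (j k : ℕ) (x : ℝ) : ℝ :=
  ∑ C ∈ U.powersetCard j, ∑ D ∈ U.powersetCard k, wt u C * wt u D * x ^ (symmDiff C D).card

end RL2
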