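import Pool.Agent.RL2.DefsE
import Pool.Agent.RL1.Beta

/-!
MP_3f3e0f_an: the x-kernel of a second chain and the displacement identity.
-/

namespace RL2

open Finset RL1

variable {α : Type*} [DecidableEq α]

/-- sums with `|A \ B|` -/
theorem sum_sdiff_card (V : Finset α) (g : Finset α → Finset α → ℝ) :
    ∑ A ∈ V.powerset, ∑ B ∈ V.powerset, ((A \ B).card : ℝ) * g A B
      = ∑ l ∈ V, ∑ A ∈ (V.erase l).powerset, ∑ B ∈ (V.erase l).powerset, g (insert l A) B := by
  have h1 : ∀ l ∈ V, ∑ A ∈ (V.erase l).powerset, ∑ B ∈ (V.erase l).powerset, g (insert l A) B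
      = ∑ A ∈ V.powerset, ∑ B ∈ V.powerset, if l ∈ A ∧ l ∉ B then g A B else 0 := by
    intro l hl
    rw [sum_powerset_erase_insert hl (fun A => ∑ B ∈ (V.erase l).powerset, g A B)]
    refine sum_congr rfl fun A _ => ?_
    by_cases hA : l ∈ A
    · rw [if_pos hA, sum_powerset_erase]
      refine sum_congr rfl fun B _ => ?_
      simp only [hA, true_and]
    · rw [if_neg hA]
      refine (sum_eq_zero fun B _ => ?_).symm
      simp only [hA, false_and, if_false]
  rw [sum_congr rfl h1]
  symm
  rw [sum_comm]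
  refine sum_congr rfl fun A hA => ?_
  rw [sum_comm]
  refine sum_congr rfl fun B _ => ?_
  rw [← sum_filter, sum_const, nsmul_eq_mul]
  have : V.filter (fun l => l ∈ A ∧ l ∉ B) = A \ B := by
    ext z
    simp only [mem_filter, mem_sdiff]
    constructor
    · rintro ⟨_, h⟩; exact h
    · rintro h; exact ⟨mem_powerset.1 hA h.1, h⟩
  rw [this]

/-- the kernel with the weight `|C \ D|` -/
noncomputable def gL (u : α → ℝ) (U : Finset α) (j k : ℕ) (x : ℝ) : ℝ :=
  ∑ C ∈ U.powersetCard j, ∑ D ∈ U.powersetCard k, wt u C * wt u D * (((C \ D).card : ℝ) * x ^ (symmDiff C D).card)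

/-- the kernel with the weight `|C sd D|` -/
noncomputable def gS (u : α → ℝ) (U : Finset α) (j k : ℕ) (x : ℝ) : ℝ :=
  ∑ C ∈ U.powersetCard j, ∑ D ∈ U.powersetCard k, wt u C * wt u D * (((symmDiff C D).card : ℝ) * x ^ (symmDiff C D).card)

/-- the derivative of the kernel -/
noncomputable def hd (u : α → ℝ) (U : Finset α) (j k : ℕ) (x : ℝ) : ℝ :=
  ∑ C ∈ U.powersetCard j, ∑ D ∈ U.powersetCard k, wt u C * wt u D *
    (((symmDiff C D).card : ℝ) * x ^ ((symmDiff C D).card - 1))

theorem hx_symm (u : α → ℝ) (U : Finset α) (j k : ℕ) (x : ℝ) : hx u U j k x = hx u U k j x := by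
  unfold hx
  rw [sum_comm]
  refine sum_congr rfl fun C _ => sum_congr rfl fun D _ => ?_
  rw [symmDiff_comm]
  ring

theorem gS_symm (u : α → ℝ) (U : Finset α) (j k : ℕ) (x : ℝ) : gS u U j k x = gS u U k j x := by
  unfold gS
  rw [sum_comm]
  refine sum_congr rfl fun C _ => sum_congr rfl fun D _ => ?_
  rw [symmDiff_comm]
  ring

theorem hx_cont (u : α → ℝ) (U : Finset α) (j k : ℕ) : Continuous (hx u U j k) := by
  unfold hx
  fun_prop

theorem hd_cont (u : α → ℝ) (U : Finset α) (j k : ℕ) : Continuous (hd u U j k) := by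
  unfold hd
  fun_prop

theorem gL_cont (u : α → ℝ) (U : Finset α) (j k : ℕ) : Continuous (gL u U j k) := by
  unfold gL
  fun_prop

theorem hx_deriv (u : α → ℝ) (U : Finset α) (j k : ℕ) (x : ℝ) : HasDerivAt (hx u U j k) (hd u U j k x) x := by
  unfold hx hd
  refine HasDerivAt.fun_sum fun C _ => HasDerivAt.fun_sum fun D _ => ?_
  exact (hasDerivAt_pow _ x).const_mul _

theorem hd_mul (u : α → ℝ) (U : Finset α) (j k : ℕ) (x : ℝ) : x * hd u U j k x = gS u U j k x := by
  unfold hd gS
  rw [mul_sum]
  refine sum_congr rfl fun C _ => ?_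
  rw [mul_sum]
  refine sum_congr rfl fun D _ => ?_
  rcases Nat.eq_zero_or_pos (symmDiff C D).card with h | h
  · rw [h]; simp
  · obtain ⟨s, hs⟩ : ∃ s, (symmDiff C D).card = s + 1 := ⟨(symmDiff C D).card - 1, by omega⟩
    rw [hs, Nat.add_sub_cancel, pow_succ]
    ring

/-- the two counts of a pair -/
theorem two_gL (u : α → ℝ) (U : Finset α) (j k : ℕ) (x : ℝ) :
    2 * gL u U j k x = gS u U j k x + ((j : ℝ) - k) * hx u U j k x := by
  unfold gL gS hx
  rw [mul_sum, mul_sum, ← sum_add_distrib]
  refine sum_congr rfl fun C hC => ?_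
  rw [mul_sum, mul_sum, ← sum_add_distrib]
  refine sum_congr rfl fun D hD => ?_
  have h1 : (symmDiff C D).card = (C \ D).card + (D \ C).card := by
    rw [symmDiff_def, sup_eq_union, card_union_of_disjoint disjoint_sdiff_sdiff]
  have h2 := card_sdiff_add_card_inter C D
  have h3 := card_sdiff_add_card_inter D C
  rw [inter_comm] at h3
  rw [(mem_powersetCard.1 hC).2] at h2
  rw [(mem_powersetCard.1 hD).2] at h3
  have h4 : (j : ℝ) - k = ((C \ D).card : ℝ) - ((D \ C).card : ℝ) := by
    rw [← h2, ← h3]; push_cast; ring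
  have h5 : ((symmDiff C D).card : ℝ) = ((C \ D).card : ℝ) + ((D \ C).card : ℝ) := by
    rw [h1]; push_cast; ring
  rw [h4, h5]
  ring

theorem sum2_powersetCard (V : Finset α) (p q : ℕ) (G : Finset α → Finset α → ℝ) :
    ∑ A ∈ V.powersetCard p, ∑ B ∈ V.powersetCard q, G A B
      = ∑ A ∈ V.powerset, ∑ B ∈ V.powerset, if A.card = p ∧ B.card = q then G A B else 0 := by
  rw [sum_powersetCard_eq V p (fun A => ∑ B ∈ V.powersetCard q, G A B)]
  refine sum_congr rfl fun A _ => ?_
  by_cases h : A.card = p
  · rw [if_pos h, sum_powersetCard_eq]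
    refine sum_congr rfl fun B _ => ?_
    simp only [h, true_and]
  · rw [if_neg h]
    refine (sum_eq_zero fun B _ => ?_).symm
    simp only [h, false_and, if_false]

/-- moving one element from the first set to the second -/
theorem gL_shift (u : α → ℝ) (U : Finset α) (j k : ℕ) (x : ℝ) : gL u U (j + 1) k x = gL u U (k + 1) j x := by
  have key : ∀ j k : ℕ, gL u U (j + 1) k x = ∑ l ∈ U, ∑ A ∈ (U.erase l).powerset, ∑ B ∈ (U.erase l).powerset,
      if A.card = j ∧ B.card = k then u l * (wt u A * wt u B) * x ^ ((symmDiff A B).card + 1) else 0 := by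
    intro j k
    unfold gL
    rw [sum2_powersetCard]
    have e1 : ∀ A B : Finset α, (if A.card = j + 1 ∧ B.card = k then
        wt u A * wt u B * (((A \ B).card : ℝ) * x ^ (symmDiff A B).card) else 0)
        = ((A \ B).card : ℝ) * (if A.card = j + 1 ∧ B.card = k then wt u A * wt u B * x ^ (symmDiff A B).card else 0) := by
      intro A B
      split_ifs <;> ring
    simp only [e1]
    rw [sum_sdiff_card]
    refine sum_congr rfl fun l _ => sum_congr rfl fun A hA => sum_congr rfl fun B hB => ?_
    have hlA : l ∉ A := fun h => (mem_erase.1 (mem_powerset.1 hA h)).1 rfl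
    have hlB : l ∉ B := fun h => (mem_erase.1 (mem_powerset.1 hB h)).1 rfl
    rw [card_insert_of_notMem hlA, card_symmDiff_insert_left hlA hlB, wt_insert u hlA]
    simp only [Nat.add_right_cancel_iff]
    split_ifs <;> ring
  rw [key, key]
  refine sum_congr rfl fun l _ => ?_
  rw [sum_comm]
  refine sum_congr rfl fun A _ => sum_congr rfl fun B _ => ?_
  rw [symmDiff_comm]
  by_cases h : B.card = j ∧ A.card = k
  · rw [if_pos h, if_pos h.symm]; ring
  · rw [if_neg h, if_neg (fun h' => h h'.symm)]

theorem hx_one (u : α → ℝ) (U : Finset α) (j k : ℕ) : hx u U j k 1 = esy u U j * esy u U k := by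
  unfold hx esy
  rw [sum_mul_sum]
  refine sum_congr rfl fun C _ => sum_congr rfl fun D _ => ?_
  rw [one_pow, mul_one]

theorem hx_psd {β : Type*} [DecidableEq β] (u : β → ℝ) (U : Finset β) (x : ℝ) (h0 : 0 ≤ x) (h1 : x ≤ 1) (N : ℕ) (c : ℕ → ℝ) :
    0 ≤ ∑ j ∈ range N, ∑ k ∈ range N, c j * c k * hx u U j k x := by
  have h := qt_nonneg x h0 h1 U (fun C => if C.card < N then c C.card * wt u C else 0)
  have e : ∑ j ∈ range N, ∑ k ∈ range N, c j * c k * hx u U j k x
      = qt x U (fun C => if C.card < N then c C.card * wt u C else 0) := by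
    have e1 : ∀ j ∈ range N, ∀ k ∈ range N, c j * c k * hx u U j k x
        = ∑ A ∈ U.powerset, ∑ B ∈ U.powerset, if A.card = j ∧ B.card = k then
          c A.card * wt u A * (c B.card * wt u B) * x ^ (symmDiff A B).card else 0 := by
      intro j _ k _
      rw [hx, sum2_powersetCard, mul_sum]
      refine sum_congr rfl fun A _ => ?_
      rw [mul_sum]
      refine sum_congr rfl fun B _ => ?_
      split_ifs with h
      · rw [h.1, h.2]; ring
      · ring
    rw [sum_congr rfl fun j hj => sum_congr rfl fun k hk => e1 j hj k hk]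
    unfold qt
    have e2 : ∀ j ∈ range N, ∑ k ∈ range N, ∑ A ∈ U.powerset, ∑ B ∈ U.powerset, (if A.card = j ∧ B.card = k then
          c A.card * wt u A * (c B.card * wt u B) * x ^ (symmDiff A B).card else 0)
        = ∑ A ∈ U.powerset, ∑ B ∈ U.powerset, ∑ k ∈ range N, if A.card = j ∧ B.card = k then
          c A.card * wt u A * (c B.card * wt u B) * x ^ (symmDiff A B).card else 0 := by
      intro j _
      rw [sum_comm]
      refine sum_congr rfl fun A _ => ?_
      rw [sum_comm]
    rw [sum_congr rfl e2, sum_comm]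
    refine sum_congr rfl fun A _ => ?_
    rw [sum_comm]
    refine sum_congr rfl fun B _ => ?_
    simp only
    by_cases hA : A.card < N
    · rw [if_pos hA]
      by_cases hB : B.card < N
      · rw [if_pos hB, sum_eq_single_of_mem A.card (mem_range.2 hA), sum_eq_single_of_mem B.card (mem_range.2 hB)]
        · simp
        · intro k _ hk
          rw [if_neg (fun h => hk h.2.symm)]
        · intro j _ hj
          refine sum_eq_zero fun k _ => ?_
          rw [if_neg (fun h => hj h.1.symm)]
      · rw [if_neg hB]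
        have : ∑ j ∈ range N, ∑ k ∈ range N, (if A.card = j ∧ B.card = k then
            c A.card * wt u A * (c B.card * wt u B) * x ^ (symmDiff A B).card else 0) = 0 := by
          refine sum_eq_zero fun j _ => sum_eq_zero fun k hk => ?_
          rw [if_neg]
          rintro ⟨_, h2⟩
          exact hB (h2 ▸ mem_range.1 hk)
        rw [this]; ring
    · rw [if_neg hA]
      have : ∑ j ∈ range N, ∑ k ∈ range N, (if A.card = j ∧ B.card = k then
          c A.card * wt u A * (c B.card * wt u B) * x ^ (symmDiff A B).card else 0) = 0 := by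
        refine sum_eq_zero fun j hj => sum_eq_zero fun k _ => ?_
        rw [if_neg]
        rintro ⟨h1, _⟩
        exact hA (h1 ▸ mem_range.1 hj)
      rw [this]; ring
  rw [e]
  exact h

/-- `E1` as an integral -/
theorem E1_integral (P : ℕ → ℕ → ℝ → ℝ) (hc : ∀ j k, Continuous (P j k)) (w : α → ℝ) (V : Finset α) (j k : ℕ) :
    E1 (mom P) w V j k = ∫ x in (0 : ℝ)..1, 2 * P j k x * gL w V (j + 1) k x := by
  have hi : ∀ A B : Finset α, wt w A * wt w B * (((A \ B).card : ℝ) * mom P 0 j k ((symmDiff A B).card - 1))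
      = ∫ x in (0 : ℝ)..1, 2 * P j k x * (wt w A * wt w B * (((A \ B).card : ℝ) * x ^ (symmDiff A B).card)) := by
    intro A B
    unfold mom
    rw [← mul_assoc, ← intervalIntegral.integral_const_mul]
    refine intervalIntegral.integral_congr fun x _ => ?_
    simp only [pow_zero, one_mul]
    rcases Nat.eq_zero_or_pos (A \ B).card with h | h
    · rw [h]; simp
    · have h1 : 0 < (symmDiff A B).card := by
        rw [symmDiff_def, sup_eq_union]
        exact lt_of_lt_of_le h (card_le_card subset_union_left)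
      obtain ⟨s, hs⟩ : ∃ s, (symmDiff A B).card = s + 1 := ⟨(symmDiff A B).card - 1, by omega⟩
      rw [hs, Nat.add_sub_cancel, pow_succ]
      ring
  unfold E1 gL
  have e1 : ∀ x : ℝ, 2 * P j k x * ∑ A ∈ V.powersetCard (j + 1), ∑ B ∈ V.powersetCard k,
      wt w A * wt w B * (((A \ B).card : ℝ) * x ^ (symmDiff A B).card)
      = ∑ A ∈ V.powersetCard (j + 1), ∑ B ∈ V.powersetCard k,
      2 * P j k x * (wt w A * wt w B * (((A \ B).card : ℝ) * x ^ (symmDiff A B).card)) := by
    intro x
    rw [mul_sum]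
    refine sum_congr rfl fun A _ => ?_
    rw [mul_sum]
  simp_rw [e1]
  have hcont : ∀ A B : Finset α, Continuous (fun x : ℝ =>
      2 * P j k x * (wt w A * wt w B * (((A \ B).card : ℝ) * x ^ (symmDiff A B).card))) := by
    intro A B
    have := hc j k
    fun_prop
  rw [intervalIntegral.integral_finsetSum]
  · refine sum_congr rfl fun A _ => ?_
    rw [intervalIntegral.integral_finsetSum]
    · exact sum_congr rfl fun B _ => hi A B
    · intro B _
      exact (hcont A B).intervalIntegrable _ _
  · intro A _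
    exact (continuous_finsetSum _ fun B _ => hcont A B).intervalIntegrable _ _

/-- displacement of the Bezoutian metric of `Σ a_k f_k z^k`, `a = esy w V`, `f = esy u U` -/
theorem displ {β : Type*} [DecidableEq β] (w : α → ℝ) (V : Finset α) (u : β → ℝ) (U : Finset β) (j k : ℕ) :
    E1 (mom (hx u U)) w V j (k + 1) - E1 (mom (hx u U)) w V (j + 1) k
      = esy w V (j + 1) * esy w V (k + 1) * (esy u U j * esy u U (k + 1) - esy u U (j + 1) * esy u U k) := by
  rw [E1_integral _ (hx_cont u U), E1_integral _ (hx_cont u U)]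
  have c1 := hx_cont u U j (k + 1)
  have c2 := hx_cont u U (j + 1) k
  have c3 := gL_cont w V (j + 1) (k + 1)
  have c4 := gL_cont w V (j + 1 + 1) k
  rw [← intervalIntegral.integral_sub (Continuous.intervalIntegrable (by fun_prop) _ _)
    (Continuous.intervalIntegrable (by fun_prop) _ _)]
  have hder : ∀ x ∈ Set.uIcc (0 : ℝ) 1, HasDerivAt
      (fun x => x * hx w V (j + 1) (k + 1) x * (hx u U j (k + 1) x - hx u U (j + 1) k x))
      (2 * hx u U j (k + 1) x * gL w V (j + 1) (k + 1) x - 2 * hx u U (j + 1) k x * gL w V (j + 1 + 1) k x) x := by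
    intro x _
    have h1 := ((hasDerivAt_id x).mul (hx_deriv w V (j + 1) (k + 1) x)).mul
      ((hx_deriv u U j (k + 1) x).sub (hx_deriv u U (j + 1) k x))
    refine h1.congr_deriv ?_
    have e1 := two_gL w V (j + 1) (k + 1) x
    have e2 := two_gL w V (k + 1) (j + 1) x
    have e3 : gS w V (k + 1) (j + 1) x = gS w V (j + 1) (k + 1) x := gS_symm w V _ _ x
    have e4 := gL_shift w V (j + 1) k x
    have e5 := hx_symm w V (k + 1) (j + 1) x
    have e6 := hd_mul w V (j + 1) (k + 1) x
    have f1 := two_gL u U (j + 1) k x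
    have f2 := two_gL u U (k + 1) j x
    have f3 : gS u U (k + 1) j x = gS u U j (k + 1) x := gS_symm u U _ _ x
    have f4 := gL_shift u U j k x
    have f5 := hx_symm u U (k + 1) j x
    have f6 := hd_mul u U j (k + 1) x
    have f7 := hd_mul u U (j + 1) k x
    rw [e3, e5] at e2
    rw [f3, f5, ← f4] at f2
    push_cast at e1 e2 f1 f2
    have g1 : 2 * gL w V (j + 1 + 1) k x = gS w V (j + 1) (k + 1) x + (k - j) * hx w V (j + 1) (k + 1) x := by
      rw [e4, e2]; ring
    have g2 : x * hd u U j (k + 1) x - x * hd u U (j + 1) k x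
        = ((j : ℝ) - k + 1) * hx u U (j + 1) k x - ((k : ℝ) - j + 1) * hx u U j (k + 1) x := by
      rw [f6, f7]; linarith
    simp only [id, Pi.mul_apply, Pi.sub_apply]
    linear_combination (-hx u U j (k + 1) x) * e1 + hx u U (j + 1) k x * g1
      + (hx w V (j + 1) (k + 1) x) * g2 + (hx u U j (k + 1) x - hx u U (j + 1) k x) * e6
  rw [intervalIntegral.integral_eq_sub_of_hasDerivAt hder (Continuous.intervalIntegrable (by fun_prop) _ _)]
  simp only [hx_one, one_mul, zero_mul, sub_zero]

theorem E1_symm {β : Type*} [DecidableEq β] (w : α → ℝ) (V : Finset α) (u : β → ℝ) (U : Finset β) (j k : ℕ) :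
    E1 (mom (hx u U)) w V j k = E1 (mom (hx u U)) w V k j := by
  rw [E1_integral _ (hx_cont u U), E1_integral _ (hx_cont u U)]
  refine intervalIntegral.integral_congr fun x _ => ?_
  have h : 2 * hx u U j k x * gL w V (j + 1) k x = 2 * hx u U k j x * gL w V (k + 1) j x := by
    rw [hx_symm, gL_shift]
  exact h

end RL2
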