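import Pool.Agent.RL2.DefsE
import Pool.Agent.RL1.Beta

/-!
MP_3f3e0f_an, RL2, module M2: moments of a matrix of polynomials.
-/

namespace RL2

open Finset RL1

variable {α : Type*} [DecidableEq α]

theorem mom_rel (P : ℕ → ℕ → ℝ → ℝ) (hc : ∀ j k, Continuous (P j k)) (hs : ∀ j k, P j k = P k j) : Rel (mom P) := by
  refine ⟨fun r j k S => ?_, fun r j k S => ?_⟩
  · unfold mom
    have h := hc j k
    rw [← intervalIntegral.integral_sub (Continuous.intervalIntegrable (by fun_prop) _ _)
      (Continuous.intervalIntegrable (by fun_prop) _ _)]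
    refine intervalIntegral.integral_congr fun x _ => ?_
    ring
  · unfold mom
    rw [hs]

/-- the form at fixed `t` with the matrix `M` -/
noncomputable def qM (M : ℕ → ℕ → ℝ) (N : ℕ) (t : ℝ) (W : Finset α) (F : ℕ → Finset α → ℝ) : ℝ :=
  ∑ j ∈ range N, ∑ k ∈ range N, M j k * ∑ A ∈ W.powerset, ∑ B ∈ W.powerset, F j A * F k B * t ^ (symmDiff A B).card

theorem qM_insert (M : ℕ → ℕ → ℝ) (N : ℕ) (t : ℝ) {a : α} {W : Finset α} (ha : a ∉ W) (F : ℕ → Finset α → ℝ) :
    qM M N t (insert a W) F = (1 - t) * (qM M N t W F + qM M N t W (fun j A => F j (insert a A)))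
      + t * qM M N t W (fun j A => F j A + F j (insert a A)) := by
  have hn : ∀ A ∈ W.powerset, a ∉ A := fun A hA h => ha (Finset.mem_powerset.1 hA h)
  unfold qM
  rw [mul_add, mul_sum, mul_sum, mul_sum, ← sum_add_distrib, ← sum_add_distrib]
  refine sum_congr rfl fun j _ => ?_
  rw [mul_sum, mul_sum, mul_sum, ← sum_add_distrib, ← sum_add_distrib]
  refine sum_congr rfl fun k _ => ?_
  have key : ∑ A ∈ (insert a W).powerset, ∑ B ∈ (insert a W).powerset, F j A * F k B * t ^ (symmDiff A B).card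
      = (1 - t) * (∑ A ∈ W.powerset, ∑ B ∈ W.powerset, F j A * F k B * t ^ (symmDiff A B).card)
        + (1 - t) * (∑ A ∈ W.powerset, ∑ B ∈ W.powerset, F j (insert a A) * F k (insert a B) * t ^ (symmDiff A B).card)
        + t * ∑ A ∈ W.powerset, ∑ B ∈ W.powerset, (F j A + F j (insert a A)) * (F k B + F k (insert a B)) *
          t ^ (symmDiff A B).card := by
    rw [sum_powerset_insert ha]
    simp_rw [sum_powerset_insert ha]
    rw [mul_sum, mul_sum, mul_sum, ← sum_add_distrib, ← sum_add_distrib, ← sum_add_distrib]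
    refine sum_congr rfl fun A hA => ?_
    rw [mul_sum, mul_sum, mul_sum, ← sum_add_distrib, ← sum_add_distrib, ← sum_add_distrib, ← sum_add_distrib,
      ← sum_add_distrib]
    refine sum_congr rfl fun B hB => ?_
    rw [card_symmDiff_insert_right (hn A hA) (hn B hB), card_symmDiff_insert_left (hn A hA) (hn B hB),
      symmDiff_insert_insert (hn A hA) (hn B hB), pow_succ]
    ring
  rw [key]
  ring

theorem qM_nonneg (M : ℕ → ℕ → ℝ) (N : ℕ) (hM : ∀ c : ℕ → ℝ, 0 ≤ ∑ j ∈ range N, ∑ k ∈ range N, c j * c k * M j k)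
    (t : ℝ) (h0 : 0 ≤ t) (h1 : t ≤ 1) (W : Finset α) : ∀ F : ℕ → Finset α → ℝ, 0 ≤ qM M N t W F := by
  induction W using Finset.induction_on with
  | empty =>
    intro F
    have h := hM (fun j => F j ∅)
    unfold qM
    simp only [Finset.powerset_empty, Finset.sum_singleton, symmDiff_self, Finset.bot_eq_empty, Finset.card_empty,
      pow_zero, mul_one]
    refine h.trans (le_of_eq (sum_congr rfl fun j _ => sum_congr rfl fun k _ => ?_))
    ring
  | insert a W ha ih =>
    intro F
    rw [qM_insert M N t ha F]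
    have e1 := ih F
    have e2 := ih (fun j A => F j (insert a A))
    have e3 := ih (fun j A => F j A + F j (insert a A))
    have := mul_nonneg (sub_nonneg.2 h1) (add_nonneg e1 e2)
    have := mul_nonneg h0 e3
    linarith

theorem mom_pos (P : ℕ → ℕ → ℝ → ℝ) (hc : ∀ j k, Continuous (P j k)) (N : ℕ)
    (hp : ∀ x : ℝ, 0 ≤ x → x ≤ 1 → ∀ c : ℕ → ℝ, 0 ≤ ∑ j ∈ range N, ∑ k ∈ range N, c j * c k * P j k x)
    (r : ℕ) (W : Finset α) (F : ℕ → Finset α → ℝ) : 0 ≤ tip (mom P) N r W F F := by
  have e : tip (mom P) N r W F F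
      = ∫ x in (0 : ℝ)..1, 2 * x * (1 - x ^ 2) ^ r * qM (fun j k => P j k x) N x W F := by
    unfold tip RL1C.ip qM
    have hx : ∀ x : ℝ, 2 * x * (1 - x ^ 2) ^ r * ∑ j ∈ range N, ∑ k ∈ range N, P j k x *
        ∑ A ∈ W.powerset, ∑ B ∈ W.powerset, F j A * F k B * x ^ (symmDiff A B).card
        = ∑ j ∈ range N, ∑ k ∈ range N, ∑ A ∈ W.powerset, ∑ B ∈ W.powerset,
          F j A * F k B * (2 * x * P j k x * ((1 - x ^ 2) ^ r * x ^ (symmDiff A B).card)) := by
      intro x
      rw [mul_sum]
      refine sum_congr rfl fun j _ => ?_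
      rw [mul_sum]
      refine sum_congr rfl fun k _ => ?_
      rw [← mul_assoc, mul_sum]
      refine sum_congr rfl fun A _ => ?_
      rw [mul_sum]
      refine sum_congr rfl fun B _ => ?_
      ring
    simp_rw [hx]
    have hcont : ∀ j k (A B : Finset α), Continuous (fun x : ℝ =>
        F j A * F k B * (2 * x * P j k x * ((1 - x ^ 2) ^ r * x ^ (symmDiff A B).card))) := by
      intro j k A B
      have := hc j k
      fun_prop
    have hc1 : ∀ j k (A : Finset α), Continuous (fun x : ℝ => ∑ B ∈ W.powerset,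
        F j A * F k B * (2 * x * P j k x * ((1 - x ^ 2) ^ r * x ^ (symmDiff A B).card))) :=
      fun j k A => continuous_finsetSum _ fun B _ => hcont j k A B
    have hc2 : ∀ j k, Continuous (fun x : ℝ => ∑ A ∈ W.powerset, ∑ B ∈ W.powerset,
        F j A * F k B * (2 * x * P j k x * ((1 - x ^ 2) ^ r * x ^ (symmDiff A B).card))) :=
      fun j k => continuous_finsetSum _ fun A _ => hc1 j k A
    have hc3 : ∀ j, Continuous (fun x : ℝ => ∑ k ∈ range N, ∑ A ∈ W.powerset, ∑ B ∈ W.powerset,
        F j A * F k B * (2 * x * P j k x * ((1 - x ^ 2) ^ r * x ^ (symmDiff A B).card))) :=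
      fun j => continuous_finsetSum _ fun k _ => hc2 j k
    rw [intervalIntegral.integral_finsetSum (fun j _ => (hc3 j).intervalIntegrable _ _)]
    refine sum_congr rfl fun j _ => ?_
    rw [intervalIntegral.integral_finsetSum (fun k _ => (hc2 j k).intervalIntegrable _ _)]
    refine sum_congr rfl fun k _ => ?_
    rw [intervalIntegral.integral_finsetSum (fun A _ => (hc1 j k A).intervalIntegrable _ _)]
    refine sum_congr rfl fun A _ => ?_
    rw [intervalIntegral.integral_finsetSum (fun B _ => (hcont j k A B).intervalIntegrable _ _)]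
    refine sum_congr rfl fun B _ => ?_
    rw [intervalIntegral.integral_const_mul]
    rfl
  rw [e]
  refine intervalIntegral.integral_nonneg (by norm_num) fun x hx => ?_
  have h0 : 0 ≤ x := hx.1
  have h1 : x ≤ 1 := hx.2
  refine mul_nonneg (mul_nonneg (by linarith) (pow_nonneg (by nlinarith) _)) ?_
  exact qM_nonneg _ N (hp x h0 h1) x h0 h1 W F

end RL2
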