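import Pool.Agent.RL2.Rec2
import Pool.Agent.RL2.Mom
import Pool.Agent.RL2.Jmap
import Pool.Agent.RFS53.Gen

/-!
MP_3f3e0f_an: assembly of the recursion with an arbitrary multiplier.

`w` = weights of the chain `a` (`a_k = esy w V k`), `u` = weights of the second chain (`f_k = esy u U k`).
From the two hypotheses `HW` (the terms of `nn`) and `HN` (the norm term) the operator `T = a_j / a_{j+1}` is
accretive in the Bezoutian metric of `∑ a_k f_k z^k`, and all the data `RepG` exist.
-/

set_option linter.unusedSectionVars false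

namespace RL2

open Finset RL1

variable {α β : Type*} [DecidableEq α] [DecidableEq β]

/-- the terms of `nn` are nonnegative -/
def HW (w : α → ℝ) (V0 : Finset α) (u : β → ℝ) (U : Finset β) (N : ℕ) : Prop :=
  ∀ γ : ℕ → ℝ, ∀ r, ∀ V ⊆ V0, V.card + 2 * r = V0.card → ∀ a ∈ V, ∀ b ∈ V, a ≠ b →
    0 ≤ tip (nn (mom (hx u U))) N r ((V.erase a).erase b)
      (fun j A => Kg w γ r V j a (insert b A)) (fun j A => Kg w γ r V j a (insert b A))

/-- the norm term is nonnegative -/
def HN (w : α → ℝ) (V : Finset α) (u : β → ℝ) (U : Finset β) (N : ℕ) : Prop :=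
  ∀ c : ℕ → ℝ, 0 ≤ ∑ j ∈ range N, ∑ k ∈ range N, c j * c k * N0 (mom (hx u U)) w V j k

theorem form_nonneg (w : α → ℝ) (hw : ∀ a, 0 < w a) (V : Finset α) (u : β → ℝ) (U : Finset β) (N : ℕ)
    (hW : HW w V u U N) (hN : HN w V u U N) (γ : ℕ → ℝ) :
    0 ≤ ∑ j ∈ range N, ∑ k ∈ range N, γ j * γ k *
      ((esy w V j * esy w V (k + 1) + esy w V k * esy w V (j + 1)) * E1 (mom (hx u U)) w V j k) := by
  have hm : Rel (mom (hx u U)) := mom_rel _ (hx_cont u U) fun j k => funext fun x => hx_symm u U j k x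
  have h1 := QG_nonneg' (mom (hx u U)) hm w hw γ N V
    (fun r W F => mom_pos (hx u U) (hx_cont u U) N (fun x h0 h1 c => hx_psd u U x h0 h1 N c) r W F) (hW γ)
  rw [form_eq2 _ hm] at h1
  have h2 := hN fun j => γ j * esy w V (j + 1)
  have h3 : ∑ j ∈ range N, ∑ k ∈ range N, γ j * γ k *
      ((esy w V j * esy w V (k + 1) + esy w V k * esy w V (j + 1)) * E1 (mom (hx u U)) w V j k)
      = (∑ j ∈ range N, ∑ k ∈ range N, γ j * γ k *
      (esy w V j * esy w V (k + 1) * E1 (mom (hx u U)) w V j k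
        + esy w V k * esy w V (j + 1) * E1 (mom (hx u U)) w V k j
        - esy w V (j + 1) * esy w V (k + 1) * N0 (mom (hx u U)) w V j k))
      + ∑ j ∈ range N, ∑ k ∈ range N, γ j * esy w V (j + 1) * (γ k * esy w V (k + 1))
        * N0 (mom (hx u U)) w V j k := by
    simp only [← sum_add_distrib]
    refine sum_congr rfl fun j _ => sum_congr rfl fun k _ => ?_
    rw [E1_symm w V u U k j]
    ring
  rw [h3]
  exact add_nonneg h1 h2

theorem esy_pos {w : α → ℝ} (hw : ∀ a, 0 < w a) {V : Finset α} {p : ℕ} (hp : p ≤ V.card) : 0 < esy w V p := by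
  unfold esy
  exact Finset.sum_pos (fun A _ => Finset.prod_pos fun a _ => hw a) (Finset.powersetCard_nonempty.mpr hp)

/-- accretivity of `T = a_j / a_{j+1}` in the metric of `∑ a_k f_k z^k` -/
theorem acc_nonneg (w : α → ℝ) (hw : ∀ a, 0 < w a) (V : Finset α) (u : β → ℝ) (U : Finset β)
    (hW : HW w V u U V.card) (hN : HN w V u U V.card) (c : Fin V.card → ℝ) :
    0 ≤ ∑ j : Fin V.card, ∑ k : Fin V.card, (esy w V j / esy w V (j + 1)) * c j * c k
      * E1 (mom (hx u U)) w V j k := by
  set C : ℕ → ℝ := fun j => if h : j < V.card then c ⟨j, h⟩ else 0 with hC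
  have hc : ∀ j : Fin V.card, c j = C j := fun j => by simp [hC]
  have h := form_nonneg w hw V u U V.card hW hN fun j => C j / esy w V (j + 1)
  have e : ∑ j : Fin V.card, ∑ k : Fin V.card, (esy w V j / esy w V (j + 1)) * c j * c k
      * E1 (mom (hx u U)) w V j k
      = ∑ j ∈ range V.card, ∑ k ∈ range V.card, (esy w V j / esy w V (j + 1)) * C j * C k
      * E1 (mom (hx u U)) w V j k := by
    rw [Finset.sum_range]
    refine sum_congr rfl fun j _ => ?_
    rw [Finset.sum_range]
    refine sum_congr rfl fun k _ => ?_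
    rw [hc, hc]
  have e2 : ∑ j ∈ range V.card, ∑ k ∈ range V.card, (esy w V j / esy w V (j + 1)) * C j * C k
      * E1 (mom (hx u U)) w V j k
      = ∑ j ∈ range V.card, ∑ k ∈ range V.card, (esy w V k / esy w V (k + 1)) * C j * C k
      * E1 (mom (hx u U)) w V j k := by
    rw [sum_comm]
    refine sum_congr rfl fun j _ => sum_congr rfl fun k _ => ?_
    rw [E1_symm w V u U k j]
    ring
  have e3 : ∑ j ∈ range V.card, ∑ k ∈ range V.card, C j / esy w V (j + 1) * (C k / esy w V (k + 1)) *
      ((esy w V j * esy w V (k + 1) + esy w V k * esy w V (j + 1)) * E1 (mom (hx u U)) w V j k)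
      = (∑ j ∈ range V.card, ∑ k ∈ range V.card, (esy w V j / esy w V (j + 1)) * C j * C k
      * E1 (mom (hx u U)) w V j k)
      + ∑ j ∈ range V.card, ∑ k ∈ range V.card, (esy w V k / esy w V (k + 1)) * C j * C k
      * E1 (mom (hx u U)) w V j k := by
    simp only [← sum_add_distrib]
    refine sum_congr rfl fun j hj => sum_congr rfl fun k hk => ?_
    rw [mem_range] at hj hk
    have h1 : esy w V (j + 1) ≠ 0 := (esy_pos hw (by omega)).ne'
    have h2 : esy w V (k + 1) ≠ 0 := (esy_pos hw (by omega)).ne'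
    field_simp
  rw [e3, ← e2] at h
  rw [e]
  linarith

end RL2
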