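import Pool.Agent.RL2.Coup2
import Pool.Agent.RL1.LemS

/-!
MP_3f3e0f_an: module S2 of RL2, the miracle identity (Lemma C) with an arbitrary matrix of moments.
Only the relation `m (r + 1) S = m r S - m r (S + 2)` is used: the terms of `nn m` take the place of
the second relation of the moments of `dx`.
-/

set_option linter.unusedSimpArgs false
set_option linter.unusedSectionVars false

namespace RL2

open Finset RL1

variable {α : Type*} [DecidableEq α]

/-! ### conversions for two families -/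

theorem ipL_PP (b : ℕ → ℝ) (G : Finset α) (K L : α → Finset α → ℝ) :
    RL1C.ip b G (RL1C.Pt K G) (RL1C.Pt L G)
      = ∑ p ∈ idx G, ∑ q ∈ idx G, K p.1 p.2 * L q.1 q.2 * b (symmDiff p.2 q.2).card := by
  unfold RL1C.ip
  have e1 : ∀ A : Finset α, (∑ B ∈ G.powerset, RL1C.Pt K G A * RL1C.Pt L G B * b (symmDiff A B).card)
      = RL1C.Pt K G A * ∑ q ∈ RL1C.D G, L q.1 q.2 * b (symmDiff A q.2).card := by
    intro A
    rw [← RL1C.sum_Pt G L (fun B => b (symmDiff A B).card), Finset.mul_sum]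
    exact Finset.sum_congr rfl fun B _ => by ring
  rw [Finset.sum_congr rfl fun A _ => e1 A, RL1C.sum_Pt G K
    (fun A => ∑ q ∈ RL1C.D G, L q.1 q.2 * b (symmDiff A q.2).card)]
  refine Finset.sum_congr rfl fun p _ => ?_
  rw [Finset.mul_sum]
  exact Finset.sum_congr rfl fun B _ => by ring

theorem ipL_VV (b : ℕ → ℝ) (G : Finset α) (K L : α → Finset α → ℝ) :
    RL1C.ip b G (RL1C.Vt K) (RL1C.Vt L)
      = ∑ p ∈ idx G, ∑ q ∈ idx G, K p.1 p.2 * L q.1 q.2
          * b (symmDiff (insert p.1 p.2) (insert q.1 q.2)).card := by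
  unfold RL1C.ip
  have e1 : ∀ A : Finset α, (∑ B ∈ G.powerset, RL1C.Vt K A * RL1C.Vt L B * b (symmDiff A B).card)
      = RL1C.Vt K A * ∑ q ∈ RL1C.D G, L q.1 q.2 * b (symmDiff A (insert q.1 q.2)).card := by
    intro A
    rw [← RL1C.sum_Vt G L (fun B => b (symmDiff A B).card), Finset.mul_sum]
    exact Finset.sum_congr rfl fun B _ => by ring
  rw [Finset.sum_congr rfl fun A _ => e1 A, RL1C.sum_Vt G K
    (fun A => ∑ q ∈ RL1C.D G, L q.1 q.2 * b (symmDiff A (insert q.1 q.2)).card)]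
  refine Finset.sum_congr rfl fun p _ => ?_
  rw [Finset.mul_sum]
  exact Finset.sum_congr rfl fun B _ => by ring

theorem ipL_PV (b : ℕ → ℝ) (G : Finset α) (K L : α → Finset α → ℝ) :
    ∑ z ∈ G, RL1C.ip b (G.erase z) (RL1C.Pt K G) (fun A => RL1C.Vt L (insert z A))
      = ∑ p ∈ idx G, ∑ q ∈ idx G, K p.1 p.2 * L q.1 q.2
          * (((insert q.1 q.2 \ p.2).card : ℝ) * b ((symmDiff p.2 (insert q.1 q.2)).card - 1)) := by
  rw [RL1C.sum_ip_insert]
  have e1 : ∀ A : Finset α, (∑ C ∈ G.powerset, RL1C.Pt K G A * RL1C.Vt L C *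
        (((C \ A).card : ℝ) * b ((symmDiff A C).card - 1)))
      = RL1C.Pt K G A * ∑ q ∈ RL1C.D G, L q.1 q.2 *
        (((insert q.1 q.2 \ A).card : ℝ) * b ((symmDiff A (insert q.1 q.2)).card - 1)) := by
    intro A
    rw [← RL1C.sum_Vt G L (fun C => ((C \ A).card : ℝ) * b ((symmDiff A C).card - 1)), Finset.mul_sum]
    exact Finset.sum_congr rfl fun B _ => by ring
  rw [Finset.sum_congr rfl fun A _ => e1 A, RL1C.sum_Pt G K
    (fun A => ∑ q ∈ RL1C.D G, L q.1 q.2 *
        (((insert q.1 q.2 \ A).card : ℝ) * b ((symmDiff A (insert q.1 q.2)).card - 1)))]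
  refine Finset.sum_congr rfl fun p _ => ?_
  rw [Finset.mul_sum]
  exact Finset.sum_congr rfl fun B _ => by ring

theorem ipL_KP (b : ℕ → ℝ) (G : Finset α) (K L : α → Finset α → ℝ) :
    ∑ z ∈ G, RL1C.ip b (G.erase z) (K z) (RL1C.Pt L G)
      = ∑ p ∈ idx G, ∑ q ∈ idx G, K p.1 p.2 * L q.1 q.2
          * (if p.1 ∉ q.2 then b (symmDiff p.2 q.2).card else 0) := by
  have h0 := RL1C.sum_D_one G (fun a A => ∑ q ∈ RL1C.D G, K a A * L q.1 q.2
          * (if a ∉ q.2 then b (symmDiff A q.2).card else 0))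
  refine Eq.trans ?_ h0.symm
  refine Finset.sum_congr rfl fun z hz => ?_
  unfold RL1C.ip
  refine Finset.sum_congr rfl fun A _ => ?_
  rw [← RL1C.sum_pow_notMem]
  have := RL1C.sum_Pt G L (fun B => K z A * (if z ∉ B then b (symmDiff A B).card else 0))
  rw [show (∑ q ∈ RL1C.D G, K z A * L q.1 q.2 * (if z ∉ q.2 then b (symmDiff A q.2).card else 0))
      = ∑ q ∈ RL1C.D G, L q.1 q.2 * (K z A * (if z ∉ q.2 then b (symmDiff A q.2).card else 0)) from
      Finset.sum_congr rfl fun q _ => by ring, ← this]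
  refine Finset.sum_congr rfl fun B _ => ?_
  by_cases h : z ∈ B
  · simp [h]
  · simp only [h, not_false_eq_true, if_true]; ring

theorem ipL_KV (b : ℕ → ℝ) (G : Finset α) (K L : α → Finset α → ℝ) :
    ∑ z ∈ G, RL1C.ip b (G.erase z) (K z) (fun A => RL1C.Vt L (insert z A))
      = ∑ p ∈ idx G, ∑ q ∈ idx G, K p.1 p.2 * L q.1 q.2
          * (if p.1 ∈ insert q.1 q.2 then
              b ((symmDiff p.2 (insert q.1 q.2)).card - 1) else 0) := by
  have h0 := RL1C.sum_D_one G (fun a A => ∑ q ∈ RL1C.D G, K a A * L q.1 q.2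
          * (if a ∈ insert q.1 q.2 then b ((symmDiff A (insert q.1 q.2)).card - 1) else 0))
  refine Eq.trans ?_ h0.symm
  refine Finset.sum_congr rfl fun z hz => ?_
  unfold RL1C.ip
  refine Finset.sum_congr rfl fun A hA => ?_
  rw [mem_powerset, subset_erase] at hA
  have := RL1C.sum_Vt G L (fun C => K z A * (if z ∈ C then b ((symmDiff A C).card - 1) else 0))
  rw [show (∑ q ∈ RL1C.D G, K z A * L q.1 q.2 *
        (if z ∈ insert q.1 q.2 then b ((symmDiff A (insert q.1 q.2)).card - 1) else 0))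
      = ∑ q ∈ RL1C.D G, L q.1 q.2 * (K z A *
        (if z ∈ insert q.1 q.2 then b ((symmDiff A (insert q.1 q.2)).card - 1) else 0)) from
      Finset.sum_congr rfl fun q _ => by ring, ← this]
  have e2 : ∀ C ∈ G.powerset,
      RL1C.Vt L C * (K z A * (if z ∈ C then b ((symmDiff A C).card - 1) else 0))
      = if z ∈ C then RL1C.Vt L C * (K z A * b ((symmDiff A C).card - 1)) else 0 := by
    intro C _
    by_cases h : z ∈ C <;> simp [h]
  rw [Finset.sum_congr rfl e2, RL1C.sum_pow_mem G hz]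
  refine Finset.sum_congr rfl fun B hB => ?_
  rw [mem_powerset, subset_erase] at hB
  rw [RL1C.card_sd_insert hA.2 hB.2, Nat.add_sub_cancel]
  ring

/-! ### the pointwise identity -/

/-- left kernel -/
noncomputable def lkb (β : ℕ → ℕ → ℝ) (r : ℕ) (a : α) (A : Finset α) (b : α) (B : Finset α) : ℝ :=
  ((r : ℝ) + 1) ^ 2 * (if a = b then β (r + 1) (symmDiff A B).card else 0)
    + 2 * (((insert b B \ A).card : ℝ) * β (r + 1) ((symmDiff A (insert b B)).card - 1))
    + 2 * ((r : ℝ) + 1) * ((if a ∉ B then β (r + 1) (symmDiff A B).card else 0)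
        + (if a ∈ insert b B then β (r + 1) ((symmDiff A (insert b B)).card - 1) else 0))
    - ((r : ℝ) + 1) * β r (symmDiff (insert a A) (insert b B)).card
    - ((((symmDiff A B).card : ℝ) + 2 * r + 3) * β (r + 1) (symmDiff A B).card
        - ((r : ℝ) + 1) * β r (symmDiff A B).card)

/-- right kernel -/
noncomputable def rkb (β : ℕ → ℕ → ℝ) (r : ℕ) (a : α) (A : Finset α) (b : α) (B : Finset α) : ℝ :=
  ((r : ℝ) + 2) ^ 2 * (if a = b then β (r + 1) (symmDiff A B).card else 0)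
    + ((r : ℝ) + 2) * (if a ≠ b ∧ a ∉ B ∧ b ∉ A then β (r + 1) (symmDiff A B).card else 0)
    + (if a ≠ b ∧ a ∈ B ∧ b ∈ A then
        ((((symmDiff A B).card - 2 : ℕ) : ℝ) + 2 * r + 5) * β (r + 2) ((symmDiff A B).card - 2)
          - ((r : ℝ) + 2) * β (r + 1) ((symmDiff A B).card - 2) else 0)
    + 2 * (if a ≠ b ∧ a ∉ B ∧ b ∈ A then
        ((B \ A).card : ℝ) * β (r + 2) ((symmDiff A B).card - 2) else 0)

section point

variable {β : ℕ → ℕ → ℝ} (h1 : ∀ r S, β (r + 1) S = β r S - β r (S + 2))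

include h1

theorem pt_eq (r : ℕ) {a : α} {A B : Finset α} (hA : a ∉ A) (hB : a ∉ B) :
    lkb β r a A a B + lkb β r a B a A = rkb β r a A a B + rkb β r a B a A := by
  unfold lkb rkb
  rw [RL1C.card_insert_sdiff' hA hB, RL1C.card_insert_sdiff' hB hA, RL1C.card_sd_insert hA hB,
    RL1C.card_sd_insert hB hA]
  have e1 : (symmDiff (insert a A) (insert a B)).card = (symmDiff A B).card := by
    have := RL1C.card_sd_insert' (A := insert a A) (B := B) (b := a) (by simp) hB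
    rw [RL1C.sd_comm (insert a A) B, RL1C.card_sd_insert hB hA, RL1C.sd_comm B A] at this
    omega
  rw [RL1C.sd_comm (insert a B) (insert a A), e1, RL1C.sd_comm B A, RL1C.card_sd A B]
  simp only [if_true, hA, hB, not_false_eq_true, mem_insert_self, Nat.add_sub_cancel, ne_eq,
    not_true_eq_false, false_and, if_false, and_true, and_self]
  push_cast
  ring

theorem pt_out (r : ℕ) {a b : α} {A B : Finset α} (hab : a ≠ b) (haA : a ∉ A) (haB : a ∉ B)
    (hbA : b ∉ A) (hbB : b ∉ B) :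
    lkb β r a A b B + lkb β r b B a A = rkb β r a A b B + rkb β r b B a A := by
  unfold lkb rkb
  have hab' : b ≠ a := hab.symm
  have ha1 : a ∉ insert b B := by simp [hab, haB]
  have hb1 : b ∉ insert a A := by simp [hab', hbA]
  rw [RL1C.card_insert_sdiff' hbA hbB, RL1C.card_insert_sdiff' haB haA, RL1C.card_sd_insert hbA hbB,
    RL1C.card_sd_insert haB haA, RL1C.sd_comm (insert b B) (insert a A), RL1C.card_sd_insert hb1 hbB,
    RL1C.sd_comm (insert a A) B, RL1C.card_sd_insert haB haA, RL1C.sd_comm B A, RL1C.card_sd A B]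
  have k1 := h1 r ((A \ B).card + (B \ A).card)
  rw [show (A \ B).card + (B \ A).card + 1 + 1 = (A \ B).card + (B \ A).card + 2 by ring]
  simp only [hab, hab', haA, haB, hbA, hbB, ha1, hb1, if_true, if_false, not_false_eq_true,
    Nat.add_sub_cancel, ne_eq, false_and, and_true, and_self, and_false, true_and]
  push_cast at k1 ⊢
  linear_combination (-2) * ((r : ℝ) + 1) * k1

theorem pt_in (r : ℕ) {a b : α} {A B : Finset α} (haA : a ∉ A) (haB : a ∈ B)
    (hbA : b ∈ A) (hbB : b ∉ B) :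
    lkb β r a A b B + lkb β r b B a A = rkb β r a A b B + rkb β r b B a A := by
  have hab : a ≠ b := by rintro rfl; exact haA hbA
  have hab' : b ≠ a := hab.symm
  unfold lkb rkb
  have ha1 : a ∈ insert b B := by simp [haB]
  have hb1 : b ∈ insert a A := by simp [hbA]
  have c1 := RL1C.card_sd_insert' hbA hbB
  have c2 := RL1C.card_sd_insert' haB haA
  have c3 := RL1C.card_sd_insert' hb1 hbB
  rw [RL1C.sd_comm (insert a A) B] at c3
  rw [RL1C.sd_comm B A] at c2
  obtain ⟨M, hm⟩ : ∃ M, (symmDiff A B).card = M + 2 := ⟨(symmDiff A B).card - 2, by omega⟩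
  have d1 : (symmDiff A (insert b B)).card = M + 1 := by omega
  have d2 : (symmDiff B (insert a A)).card = M + 1 := by omega
  have d3 : (symmDiff (insert a A) (insert b B)).card = M := by omega
  have hc : (A \ B).card + (B \ A).card = M + 2 := by rw [← RL1C.card_sd, hm]
  have hc' : ((A \ B).card : ℝ) + (B \ A).card = M + 2 := by exact_mod_cast hc
  rw [insert_sdiff_of_mem _ hbA, insert_sdiff_of_mem _ haB, d1, d2,
    RL1C.sd_comm (insert b B) (insert a A), d3, RL1C.sd_comm B A, hm]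
  have k1 := h1 r M
  have k2 := h1 (r + 1) M
  rw [show r + 1 + 1 = r + 2 by ring] at k2
  simp only [hab, hab', haA, haB, hbA, hbB, ha1, hb1, if_true, if_false, not_false_eq_true,
    not_true_eq_false, Nat.add_sub_cancel, ne_eq, false_and, and_true, and_self, and_false,
    true_and]
  push_cast
  linear_combination 2 * ((r : ℝ) + 1) * k1 - 2 * ((M : ℝ) + 2 * r + 5) * k2
    + 2 * β (r + 1) M * hc'

theorem pt_mixed (r : ℕ) {a b : α} {A B : Finset α} (hab : a ≠ b) (haA : a ∉ A) (haB : a ∉ B)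
    (hbA : b ∈ A) (hbB : b ∉ B) :
    lkb β r a A b B + lkb β r b B a A = rkb β r a A b B + rkb β r b B a A := by
  have hab' : b ≠ a := hab.symm
  unfold lkb rkb
  have ha1 : a ∉ insert b B := by simp [haB, hab]
  have hb1 : b ∈ insert a A := by simp [hbA]
  have c1 := RL1C.card_sd_insert' hbA hbB
  have c2 := RL1C.card_sd_insert haB haA
  have c3 := RL1C.card_sd_insert' hb1 hbB
  rw [RL1C.sd_comm (insert a A) B] at c3
  rw [RL1C.sd_comm B A] at c2
  rw [insert_sdiff_of_mem _ hbA, RL1C.card_insert_sdiff' haB haA,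
    RL1C.sd_comm (insert b B) (insert a A), c2, RL1C.sd_comm B A]
  have d1 : (symmDiff A (insert b B)).card = (symmDiff A B).card - 1 := by omega
  have d3 : (symmDiff (insert a A) (insert b B)).card = (symmDiff A B).card := by omega
  rw [d1, d3]
  rcases Nat.eq_zero_or_pos (B \ A).card with h0 | h0
  · have hc : (A \ B).card = (symmDiff A B).card := by rw [RL1C.card_sd, h0, add_zero]
    rw [h0, hc]
    simp only [hab, hab', haA, haB, hbA, hbB, ha1, hb1, if_true, if_false, not_false_eq_true,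
      not_true_eq_false, Nat.add_sub_cancel, ne_eq, false_and, and_true, and_self, and_false,
      true_and]
    push_cast
    ring
  · obtain ⟨M, hm⟩ : ∃ M, (symmDiff A B).card = M + 2 := by
      have : 0 < (A \ B).card := card_pos.2 ⟨b, mem_sdiff.2 ⟨hbA, hbB⟩⟩
      have := RL1C.card_sd A B
      exact ⟨(symmDiff A B).card - 2, by omega⟩
    have hc : (A \ B).card + (B \ A).card = M + 2 := by rw [← RL1C.card_sd, hm]
    have hc' : ((A \ B).card : ℝ) + (B \ A).card = M + 2 := by exact_mod_cast hc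
    have k2 := h1 (r + 1) M
    rw [show r + 1 + 1 = r + 2 by ring] at k2
    rw [hm]
    rw [show M + 2 - 1 - 1 = M by omega]
    simp only [hab, hab', haA, haB, hbA, hbB, ha1, hb1, if_true, if_false, not_false_eq_true,
      not_true_eq_false, Nat.add_sub_cancel, ne_eq, false_and, and_true, and_self, and_false,
      true_and]
    push_cast
    linear_combination (-2) * ((B \ A).card : ℝ) * k2 + 2 * β (r + 1) (M + 2) * hc'

theorem pt (r : ℕ) {a b : α} {A B : Finset α} (haA : a ∉ A) (hbB : b ∉ B) :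
    lkb β r a A b B + lkb β r b B a A = rkb β r a A b B + rkb β r b B a A := by
  by_cases hab : a = b
  · subst hab; exact pt_eq h1 r haA hbB
  by_cases haB : a ∈ B
  · by_cases hbA : b ∈ A
    · exact pt_in h1 r haA haB hbA hbB
    · have := pt_mixed h1 r (a := b) (b := a) (A := B) (B := A) (Ne.symm hab) hbB hbA haB haA
      linarith
  · by_cases hbA : b ∈ A
    · exact pt_mixed h1 r hab haA haB hbA hbB
    · exact pt_out h1 r hab haA haB hbA hbB

end point

/-! ### bilinearity -/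

theorem ipb_congr {b : ℕ → ℝ} {W : Finset α} {F F' H H' : Finset α → ℝ}
    (hF : ∀ A ⊆ W, F A = F' A) (hH : ∀ A ⊆ W, H A = H' A) : RL1C.ip b W F H = RL1C.ip b W F' H' := by
  unfold RL1C.ip
  refine Finset.sum_congr rfl fun A hA => Finset.sum_congr rfl fun B hB => ?_
  rw [hF A (mem_powerset.1 hA), hH B (mem_powerset.1 hB)]

theorem ipb_comm (b : ℕ → ℝ) (W : Finset α) (F H : Finset α → ℝ) : RL1C.ip b W F H = RL1C.ip b W H F := by
  unfold RL1C.ip
  rw [Finset.sum_comm]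
  refine Finset.sum_congr rfl fun A _ => Finset.sum_congr rfl fun B _ => ?_
  rw [symmDiff_comm]
  ring

theorem ipb_add_left (b : ℕ → ℝ) (W : Finset α) (F G H : Finset α → ℝ) :
    RL1C.ip b W (fun A => F A + G A) H = RL1C.ip b W F H + RL1C.ip b W G H := by
  unfold RL1C.ip
  simp only [← Finset.sum_add_distrib]
  refine Finset.sum_congr rfl fun A _ => Finset.sum_congr rfl fun B _ => ?_
  ring

theorem ipb_add_right (b : ℕ → ℝ) (W : Finset α) (F G H : Finset α → ℝ) :
    RL1C.ip b W F (fun A => G A + H A) = RL1C.ip b W F G + RL1C.ip b W F H := by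
  rw [ipb_comm, ipb_add_left, ipb_comm b W G F, ipb_comm b W H F]

theorem ipb_smul_left (b : ℕ → ℝ) (W : Finset α) (c : ℝ) (F H : Finset α → ℝ) :
    RL1C.ip b W (fun A => c * F A) H = c * RL1C.ip b W F H := by
  unfold RL1C.ip
  simp only [Finset.mul_sum]
  refine Finset.sum_congr rfl fun A _ => Finset.sum_congr rfl fun B _ => ?_
  ring

theorem ipb_smul_right (b : ℕ → ℝ) (W : Finset α) (c : ℝ) (F H : Finset α → ℝ) :
    RL1C.ip b W F (fun A => c * H A) = c * RL1C.ip b W F H := by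
  rw [ipb_comm, ipb_smul_left, ipb_comm b W H F]

/-- the kernel of `nn m`, for one pair of levels -/
noncomputable def nnb (β : ℕ → ℕ → ℝ) (r S : ℕ) : ℝ :=
  ((S : ℝ) + 2 * r + 3) * β (r + 1) S - ((r : ℝ) + 1) * β r S

/-- the left side of `lemS2` for one pair of levels -/
noncomputable def lsb (β : ℕ → ℕ → ℝ) (r : ℕ) (V : Finset α) (K L : α → Finset α → ℝ) (P Q P' Q' : Finset α → ℝ) : ℝ :=
  ((r : ℝ) + 1) ^ 2 * ((∑ z ∈ V, (RL1C.ip (β (r + 1)) (V.erase z) (fun A => K z A + Q (insert z A) + P A)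
        (fun A => L z A + Q' (insert z A) + P' A)
        - RL1C.ip (β (r + 1)) (V.erase z) (fun A => Q (insert z A)) (fun A => Q' (insert z A))
        - RL1C.ip (β (r + 1)) (V.erase z) P P'))
      - (((r : ℝ) + 1) * RL1C.ip (β r) V Q Q' + RL1C.ip (nnb β r) V P P'))

theorem lsb_eq {β : ℕ → ℕ → ℝ} (h1 : ∀ r S, β (r + 1) S = β r S - β r (S + 2)) (r : ℕ) (V : Finset α)
    (K L : α → Finset α → ℝ) (P Q P' Q' : Finset α → ℝ)
    (hP : ∀ A ⊆ V, ((r : ℝ) + 1) * P A = ∑ z ∈ V \ A, K z A)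
    (hQ : ∀ A ⊆ V, ((r : ℝ) + 1) * Q A = ∑ z ∈ A, K z (A.erase z))
    (hP' : ∀ A ⊆ V, ((r : ℝ) + 1) * P' A = ∑ z ∈ V \ A, L z A)
    (hQ' : ∀ A ⊆ V, ((r : ℝ) + 1) * Q' A = ∑ z ∈ A, L z (A.erase z)) :
    2 * lsb β r V K L P Q P' Q' = ∑ p ∈ idx V, ∑ q ∈ idx V, K p.1 p.2 * L q.1 q.2
      * (rkb β r p.1 p.2 q.1 q.2 + rkb β r q.1 q.2 p.1 p.2) := by
  have s1 : ∀ A ⊆ V, RL1C.Pt K V A = ((r : ℝ) + 1) * P A := fun A hA => (hP A hA).symm
  have s2 : ∀ A ⊆ V, RL1C.Vt K A = ((r : ℝ) + 1) * Q A := fun A hA => (hQ A hA).symm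
  have s3 : ∀ A ⊆ V, RL1C.Pt L V A = ((r : ℝ) + 1) * P' A := fun A hA => (hP' A hA).symm
  have s4 : ∀ A ⊆ V, RL1C.Vt L A = ((r : ℝ) + 1) * Q' A := fun A hA => (hQ' A hA).symm
  have e1 : RL1C.ip (nnb β r) V (RL1C.Pt K V) (RL1C.Pt L V)
      = ((r : ℝ) + 1) ^ 2 * RL1C.ip (nnb β r) V P P' := by
    rw [ipb_congr (F' := fun A => ((r : ℝ) + 1) * P A) (H' := fun A => ((r : ℝ) + 1) * P' A) s1 s3,
      ipb_smul_left, ipb_smul_right]
    ring
  have e2 : RL1C.ip (β r) V (RL1C.Vt K) (RL1C.Vt L) = ((r : ℝ) + 1) ^ 2 * RL1C.ip (β r) V Q Q' := by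
    rw [ipb_congr (F' := fun A => ((r : ℝ) + 1) * Q A) (H' := fun A => ((r : ℝ) + 1) * Q' A) s2 s4,
      ipb_smul_left, ipb_smul_right]
    ring
  have e3 : ∀ z ∈ V, (((r : ℝ) + 1) ^ 2 * RL1C.ip (β (r + 1)) (V.erase z) (K z) (L z)
        + (RL1C.ip (β (r + 1)) (V.erase z) (RL1C.Pt K V) (fun A => RL1C.Vt L (insert z A))
          + RL1C.ip (β (r + 1)) (V.erase z) (RL1C.Pt L V) (fun A => RL1C.Vt K (insert z A)))
        + ((r : ℝ) + 1) * (RL1C.ip (β (r + 1)) (V.erase z) (K z) (RL1C.Pt L V)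
            + RL1C.ip (β (r + 1)) (V.erase z) (K z) (fun A => RL1C.Vt L (insert z A))
            + RL1C.ip (β (r + 1)) (V.erase z) (L z) (RL1C.Pt K V)
            + RL1C.ip (β (r + 1)) (V.erase z) (L z) (fun A => RL1C.Vt K (insert z A))))
      = ((r : ℝ) + 1) ^ 2 * (RL1C.ip (β (r + 1)) (V.erase z) (fun A => K z A + Q (insert z A) + P A)
        (fun A => L z A + Q' (insert z A) + P' A)
        - RL1C.ip (β (r + 1)) (V.erase z) (fun A => Q (insert z A)) (fun A => Q' (insert z A))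
        - RL1C.ip (β (r + 1)) (V.erase z) P P') := by
    intro z hz
    have t1 : ∀ A ⊆ V.erase z, RL1C.Pt K V A = ((r : ℝ) + 1) * P A :=
      fun A hA => s1 A (hA.trans (erase_subset _ _))
    have t2 : ∀ A ⊆ V.erase z, RL1C.Vt K (insert z A) = ((r : ℝ) + 1) * Q (insert z A) :=
      fun A hA => s2 _ (insert_subset hz (hA.trans (erase_subset _ _)))
    have t3 : ∀ A ⊆ V.erase z, RL1C.Pt L V A = ((r : ℝ) + 1) * P' A :=
      fun A hA => s3 A (hA.trans (erase_subset _ _))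
    have t4 : ∀ A ⊆ V.erase z, RL1C.Vt L (insert z A) = ((r : ℝ) + 1) * Q' (insert z A) :=
      fun A hA => s4 _ (insert_subset hz (hA.trans (erase_subset _ _)))
    rw [ipb_congr (F := RL1C.Pt K V) (F' := fun A => ((r : ℝ) + 1) * P A)
        (H' := fun A => ((r : ℝ) + 1) * Q' (insert z A)) t1 t4,
      ipb_congr (F := RL1C.Pt L V) (F' := fun A => ((r : ℝ) + 1) * P' A)
        (H' := fun A => ((r : ℝ) + 1) * Q (insert z A)) t3 t2,
      ipb_congr (F := K z) (F' := K z) (H := RL1C.Pt L V)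
        (H' := fun A => ((r : ℝ) + 1) * P' A) (fun _ _ => rfl) t3,
      ipb_congr (F := K z) (F' := K z) (H := fun A => RL1C.Vt L (insert z A))
        (H' := fun A => ((r : ℝ) + 1) * Q' (insert z A)) (fun _ _ => rfl) t4,
      ipb_congr (F := L z) (F' := L z) (H := RL1C.Pt K V)
        (H' := fun A => ((r : ℝ) + 1) * P A) (fun _ _ => rfl) t1,
      ipb_congr (F := L z) (F' := L z) (H := fun A => RL1C.Vt K (insert z A))
        (H' := fun A => ((r : ℝ) + 1) * Q (insert z A)) (fun _ _ => rfl) t2]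
    simp only [ipb_smul_left, ipb_smul_right, ipb_add_left, ipb_add_right]
    rw [ipb_comm (β (r + 1)) (V.erase z) (fun A => Q (insert z A)) (L z),
      ipb_comm (β (r + 1)) (V.erase z) P (L z),
      ipb_comm (β (r + 1)) (V.erase z) (fun A => Q (insert z A)) P']
    ring
  have e4 : 2 * lsb β r V K L P Q P' Q'
      = (∑ p ∈ idx V, ∑ q ∈ idx V, K p.1 p.2 * L q.1 q.2 * lkb β r p.1 p.2 q.1 q.2)
        + ∑ p ∈ idx V, ∑ q ∈ idx V, L p.1 p.2 * K q.1 q.2 * lkb β r p.1 p.2 q.1 q.2 := by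
    have g : ∀ K L : α → Finset α → ℝ,
        ∑ p ∈ idx V, ∑ q ∈ idx V, K p.1 p.2 * L q.1 q.2 * lkb β r p.1 p.2 q.1 q.2
        = ((r : ℝ) + 1) ^ 2 * ∑ z ∈ V, RL1C.ip (β (r + 1)) (V.erase z) (K z) (L z)
          + 2 * ∑ z ∈ V, RL1C.ip (β (r + 1)) (V.erase z) (RL1C.Pt K V) (fun A => RL1C.Vt L (insert z A))
          + 2 * ((r : ℝ) + 1) * (∑ z ∈ V, RL1C.ip (β (r + 1)) (V.erase z) (K z) (RL1C.Pt L V)
            + ∑ z ∈ V, RL1C.ip (β (r + 1)) (V.erase z) (K z) (fun A => RL1C.Vt L (insert z A)))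
          - ((r : ℝ) + 1) * RL1C.ip (β r) V (RL1C.Vt K) (RL1C.Vt L)
          - RL1C.ip (nnb β r) V (RL1C.Pt K V) (RL1C.Pt L V) := by
      intro K L
      rw [ipL_diag, ipL_PV, ipL_KP, ipL_KV, ipL_VV, ipL_PP]
      simp only [mul_add, mul_sum, ← sum_add_distrib, ← sum_sub_distrib]
      refine sum_congr rfl fun p _ => sum_congr rfl fun q _ => ?_
      rw [lkb, nnb]
      ring
    rw [g K L, g L K, lsb]
    have e5 := sum_congr rfl e3
    simp only [sum_add_distrib, ← mul_sum] at e5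
    have c1 : ∑ z ∈ V, RL1C.ip (β (r + 1)) (V.erase z) (L z) (K z)
        = ∑ z ∈ V, RL1C.ip (β (r + 1)) (V.erase z) (K z) (L z) :=
      sum_congr rfl fun z _ => ipb_comm _ _ _ _
    rw [c1, ipb_comm (β r) V (RL1C.Vt L) (RL1C.Vt K), ipb_comm (nnb β r) V (RL1C.Pt L V) (RL1C.Pt K V), e1, e2]
    linear_combination (-2) * e5
  rw [e4]
  have e6 : ∑ p ∈ idx V, ∑ q ∈ idx V, L p.1 p.2 * K q.1 q.2 * lkb β r p.1 p.2 q.1 q.2
      = ∑ p ∈ idx V, ∑ q ∈ idx V, K p.1 p.2 * L q.1 q.2 * lkb β r q.1 q.2 p.1 p.2 := by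
    rw [sum_comm]
    exact sum_congr rfl fun p _ => sum_congr rfl fun q _ => by ring
  rw [e6]
  simp only [← sum_add_distrib]
  refine sum_congr rfl fun p hp => sum_congr rfl fun q hq => ?_
  have hp2 : p.1 ∉ p.2 := (RL1C.mem_D.1 hp).2.2
  have hq2 : q.1 ∉ q.2 := (RL1C.mem_D.1 hq).2.2
  have := pt h1 r hp2 hq2
  linear_combination K p.1 p.2 * L q.1 q.2 * this

theorem rkb_eq (m : ℕ → ℕ → ℕ → ℕ → ℝ) (r j k : ℕ) (p q : α × Finset α) :
    kapG m (r + 1) j k p q = rkb (fun s => m s j k) r p.1 p.2 q.1 q.2 := by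
  rw [kapG, rkb]
  by_cases h : p.1 ≠ q.1 ∧ p.1 ∈ q.2 ∧ q.1 ∈ p.2
  · simp only [if_pos h, nn]
    push_cast
    ring
  · simp only [if_neg h]
    push_cast
    ring

/-- module S2 -/
theorem lemS2 (m : ℕ → ℕ → ℕ → ℕ → ℝ) (hm : Rel m) (N r : ℕ) (V : Finset α) (K : ℕ → α → Finset α → ℝ)
    (P Q : ℕ → Finset α → ℝ)
    (hP : ∀ j, ∀ A ⊆ V, ((r : ℝ) + 1) * P j A = ∑ z ∈ V \ A, K j z A)
    (hQ : ∀ j, ∀ A ⊆ V, ((r : ℝ) + 1) * Q j A = ∑ z ∈ A, K j z (A.erase z)) :
    ((r : ℝ) + 1) ^ 2 * ((∑ z ∈ V, (tip m N (r + 1) (V.erase z) (fun j A => K j z A + Q j (insert z A) + P j A)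
        (fun j A => K j z A + Q j (insert z A) + P j A)
        - tip m N (r + 1) (V.erase z) (fun j A => Q j (insert z A)) (fun j A => Q j (insert z A))
        - tip m N (r + 1) (V.erase z) P P)) - (((r : ℝ) + 1) * tip m N r V Q Q + tip (nn m) N r V P P))
      = QG m N (r + 1) V K := by
  have hl : ((r : ℝ) + 1) ^ 2 * ((∑ z ∈ V, (tip m N (r + 1) (V.erase z) (fun j A => K j z A + Q j (insert z A) + P j A)
        (fun j A => K j z A + Q j (insert z A) + P j A)
        - tip m N (r + 1) (V.erase z) (fun j A => Q j (insert z A)) (fun j A => Q j (insert z A))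
        - tip m N (r + 1) (V.erase z) P P)) - (((r : ℝ) + 1) * tip m N r V Q Q + tip (nn m) N r V P P))
      = ∑ j ∈ range N, ∑ k ∈ range N, lsb (fun s => m s j k) r V (K j) (K k) (P j) (Q j) (P k) (Q k) := by
    simp only [tip, lsb, ← sum_sub_distrib, sum_out, mul_sum, ← sum_add_distrib]
    rfl
  rw [hl, QG_eq_ker]
  have sy : ∑ j ∈ range N, ∑ k ∈ range N, ∑ p ∈ idx V, ∑ q ∈ idx V,
        K j p.1 p.2 * K k q.1 q.2 * rkb (fun s => m s j k) r q.1 q.2 p.1 p.2
      = ∑ j ∈ range N, ∑ k ∈ range N, ∑ p ∈ idx V, ∑ q ∈ idx V,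
        K j p.1 p.2 * K k q.1 q.2 * rkb (fun s => m s j k) r p.1 p.2 q.1 q.2 := by
    rw [sum_comm]
    refine sum_congr rfl fun j _ => sum_congr rfl fun k _ => ?_
    rw [sum_comm]
    refine sum_congr rfl fun p _ => sum_congr rfl fun q _ => ?_
    rw [show (fun s => m s k j) = fun s => m s j k from funext fun s => funext fun S => hm.2 s k j S]
    ring
  have e : ∑ j ∈ range N, ∑ k ∈ range N, (2 * lsb (fun s => m s j k) r V (K j) (K k) (P j) (Q j) (P k) (Q k))
      = 2 * ∑ j ∈ range N, ∑ k ∈ range N, ∑ p ∈ idx V, ∑ q ∈ idx V,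
        K j p.1 p.2 * K k q.1 q.2 * rkb (fun s => m s j k) r p.1 p.2 q.1 q.2 := by
    rw [two_mul]
    nth_rewrite 2 [← sy]
    simp only [← sum_add_distrib]
    refine sum_congr rfl fun j _ => sum_congr rfl fun k _ => ?_
    rw [lsb_eq (fun s S => hm.1 s j k S) r V (K j) (K k) (P j) (Q j) (P k) (Q k) (hP j) (hQ j) (hP k) (hQ k)]
    refine sum_congr rfl fun p _ => sum_congr rfl fun q _ => ?_
    ring
  simp only [← mul_sum] at e
  simp only [rkb_eq]
  linarith

end RL2
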