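import Pool.Agent.RL2.Defs
import Pool.Agent.RL2.LemS2
import Pool.Agent.RL1.Rec

/-!
MP_3f3e0f_an: the exact recursion with an arbitrary multiplier.
-/

namespace RL2

open Finset RL1

variable {α : Type*} [DecidableEq α]

/-! ### bilinearity -/

theorem tip_congr {m : ℕ → ℕ → ℕ → ℕ → ℝ} {N r : ℕ} {W : Finset α} {F F' G G' : ℕ → Finset α → ℝ}
    (hF : ∀ j, ∀ A ⊆ W, F j A = F' j A) (hG : ∀ j, ∀ A ⊆ W, G j A = G' j A) : tip m N r W F G = tip m N r W F' G' := by
  unfold tip RL1C.ip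
  refine sum_congr rfl fun j _ => sum_congr rfl fun k _ => sum_congr rfl fun A hA => sum_congr rfl fun B hB => ?_
  rw [hF j A (mem_powerset.1 hA), hG k B (mem_powerset.1 hB)]

theorem tip_add_left (m : ℕ → ℕ → ℕ → ℕ → ℝ) (N r : ℕ) (W : Finset α) (F G H : ℕ → Finset α → ℝ) :
    tip m N r W (fun j A => F j A + G j A) H = tip m N r W F H + tip m N r W G H := by
  unfold tip RL1C.ip
  simp only [← sum_add_distrib]
  refine sum_congr rfl fun j _ => sum_congr rfl fun k _ => sum_congr rfl fun A _ => sum_congr rfl fun B _ => ?_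
  ring

theorem tip_add_right (m : ℕ → ℕ → ℕ → ℕ → ℝ) (N r : ℕ) (W : Finset α) (F G H : ℕ → Finset α → ℝ) :
    tip m N r W F (fun j A => G j A + H j A) = tip m N r W F G + tip m N r W F H := by
  unfold tip RL1C.ip
  simp only [← sum_add_distrib]
  refine sum_congr rfl fun j _ => sum_congr rfl fun k _ => sum_congr rfl fun A _ => sum_congr rfl fun B _ => ?_
  ring

theorem tip_smul_left (m : ℕ → ℕ → ℕ → ℕ → ℝ) (N r : ℕ) (W : Finset α) (c : ℝ) (F G : ℕ → Finset α → ℝ) :
    tip m N r W (fun j A => c * F j A) G = c * tip m N r W F G := by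
  unfold tip RL1C.ip
  simp only [mul_sum]
  refine sum_congr rfl fun j _ => sum_congr rfl fun k _ => sum_congr rfl fun A _ => sum_congr rfl fun B _ => ?_
  ring

theorem tip_smul_right (m : ℕ → ℕ → ℕ → ℕ → ℝ) (N r : ℕ) (W : Finset α) (c : ℝ) (F G : ℕ → Finset α → ℝ) :
    tip m N r W F (fun j A => c * G j A) = c * tip m N r W F G := by
  unfold tip RL1C.ip
  simp only [mul_sum]
  refine sum_congr rfl fun j _ => sum_congr rfl fun k _ => sum_congr rfl fun A _ => sum_congr rfl fun B _ => ?_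
  ring

theorem tip_comm {m : ℕ → ℕ → ℕ → ℕ → ℝ} (hs : ∀ r j k S, m r j k S = m r k j S) (N r : ℕ) (W : Finset α)
    (F G : ℕ → Finset α → ℝ) : tip m N r W F G = tip m N r W G F := by
  unfold tip RL1C.ip
  rw [sum_comm]
  refine sum_congr rfl fun j _ => sum_congr rfl fun k _ => ?_
  rw [sum_comm]
  refine sum_congr rfl fun A _ => sum_congr rfl fun B _ => ?_
  rw [hs r k j, symmDiff_comm]
  ring

theorem nn_symm {m : ℕ → ℕ → ℕ → ℕ → ℝ} (hs : ∀ r j k S, m r j k S = m r k j S) (r j k S : ℕ) :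
    nn m r j k S = nn m r k j S := by
  unfold nn
  rw [hs (r + 1), hs r]

theorem tip_lin2 {m : ℕ → ℕ → ℕ → ℕ → ℝ} (hs : ∀ r j k S, m r j k S = m r k j S) (N r : ℕ) (W : Finset α)
    (F G : ℕ → Finset α → ℝ) (a b c d : ℝ) :
    tip m N r W (fun j A => a * F j A + b * G j A) (fun j A => c * F j A + d * G j A)
      = a * c * tip m N r W F F + (a * d + b * c) * tip m N r W F G + b * d * tip m N r W G G := by
  rw [tip_add_left, tip_add_right, tip_add_right]
  simp only [tip_smul_left, tip_smul_right]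
  rw [tip_comm hs N r W G F]
  ring

theorem tip_lin4 {m : ℕ → ℕ → ℕ → ℕ → ℝ} (hs : ∀ r j k S, m r j k S = m r k j S) (N r : ℕ) (W : Finset α)
    (F G H K : ℕ → Finset α → ℝ) (a1 a2 a3 a4 b1 b2 b3 b4 : ℝ) :
    tip m N r W (fun j A => a1 * F j A + a2 * G j A + a3 * H j A + a4 * K j A)
        (fun j A => b1 * F j A + b2 * G j A + b3 * H j A + b4 * K j A)
      = a1 * b1 * tip m N r W F F + (a1 * b2 + a2 * b1) * tip m N r W F G + (a1 * b3 + a3 * b1) * tip m N r W F H
        + (a1 * b4 + a4 * b1) * tip m N r W F K + a2 * b2 * tip m N r W G G + (a2 * b3 + a3 * b2) * tip m N r W G H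
        + (a2 * b4 + a4 * b2) * tip m N r W G K + a3 * b3 * tip m N r W H H + (a3 * b4 + a4 * b3) * tip m N r W H K
        + a4 * b4 * tip m N r W K K := by
  simp only [tip_add_left, tip_add_right, tip_smul_left, tip_smul_right]
  rw [tip_comm hs N r W G F, tip_comm hs N r W H F, tip_comm hs N r W K F, tip_comm hs N r W H G,
    tip_comm hs N r W K G, tip_comm hs N r W K H]
  ring

/-! ### pairs -/

/-- the level-split coefficient -/
noncomputable def sg (γ : ℕ → ℝ) (j : ℕ) : ℕ → ℝ := fun p => if p = j then γ j else 0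

theorem Kg_eq (w : α → ℝ) (γ : ℕ → ℝ) (r : ℕ) (V : Finset α) (j : ℕ) (a : α) (A : Finset α) :
    Kg w γ r V j a A = Kf w (sg γ j) r V a A := rfl

theorem pair_eq1 {m : ℕ → ℕ → ℕ → ℕ → ℝ} (hs : ∀ r j k S, m r j k S = m r k j S) (w : α → ℝ) (hw : ∀ a, 0 < w a)
    (γ : ℕ → ℝ) (N r : ℕ) (V : Finset α) {a b : α} (ha : a ∈ V) (hb : b ∈ V) (hab : a ≠ b) :
    tip m N r ((V.erase a).erase b) (fun j => Kg w γ r V j a) (fun j => Kg w γ r V j b)
      = 1 / 2 * (w b / w a * tip m N r ((V.erase a).erase b) (fun j => Kg w γ r V j a) (fun j => Kg w γ r V j a)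
        + w a / w b * tip m N r ((V.erase a).erase b) (fun j => Kg w γ r V j b) (fun j => Kg w γ r V j b))
        - 1 / 2 * (w a * w b * (w a - w b) ^ 2) * tip m N r ((V.erase a).erase b)
          (fun j => Phi w ((V.erase a).erase b) (fB (fr (sg γ j) r))) (fun j => Phi w ((V.erase a).erase b) (fB (fr (sg γ j) r))) := by
  set W := (V.erase a).erase b with hW
  have hW' : W = (V.erase b).erase a := by rw [hW, erase_right_comm]
  have haW : a ∉ W := by rw [hW']; exact notMem_erase _ _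
  have hbW : b ∉ W := by rw [hW]; exact notMem_erase _ _
  have e1 : ∀ j, ∀ A ⊆ W, Kg w γ r V j a A = w a * Phi w W (fr (sg γ j) r) A + w a * w b * Phi w W (fB (fr (sg γ j) r)) A := by
    intro j A hA
    rw [Kg_eq, Kf, erase_eq_insert2 hb hab, ← hW, Phi_insert w _ hbW (fun h => hbW (hA h))]
    ring
  have e2 : ∀ j, ∀ A ⊆ W, Kg w γ r V j b A = w b * Phi w W (fr (sg γ j) r) A + w b * w a * Phi w W (fB (fr (sg γ j) r)) A := by
    intro j A hA
    rw [Kg_eq, Kf, erase_eq_insert2 ha hab.symm, ← hW', Phi_insert w _ haW (fun h => haW (hA h))]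
    ring
  rw [tip_congr (F := fun j => Kg w γ r V j a) (G := fun j => Kg w γ r V j b) e1 e2,
    tip_congr (F := fun j => Kg w γ r V j a) (G := fun j => Kg w γ r V j a) e1 e1,
    tip_congr (F := fun j => Kg w γ r V j b) (G := fun j => Kg w γ r V j b) e2 e2,
    tip_lin2 hs N r W (fun j => Phi w W (fr (sg γ j) r)), tip_lin2 hs N r W (fun j => Phi w W (fr (sg γ j) r)),
    tip_lin2 hs N r W (fun j => Phi w W (fr (sg γ j) r))]
  have h1 := (hw a).ne'
  have h2 := (hw b).ne'
  field_simp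
  ring

theorem pair_eq2 {m : ℕ → ℕ → ℕ → ℕ → ℝ} (hs : ∀ r j k S, m r j k S = m r k j S) (w : α → ℝ) (hw : ∀ a, 0 < w a)
    (γ : ℕ → ℝ) (N r : ℕ) (V : Finset α) {a b : α} (ha : a ∈ V) (hb : b ∈ V) (hab : a ≠ b) :
    tip m N r ((V.erase a).erase b) (fun j A => Kg w γ r V j a (insert b A)) (fun j A => Kg w γ r V j b (insert a A))
      = 1 / 2 * (w a / w b * tip m N r ((V.erase a).erase b) (fun j A => Kg w γ r V j a (insert b A)) (fun j A => Kg w γ r V j a (insert b A))
        + w b / w a * tip m N r ((V.erase a).erase b) (fun j A => Kg w γ r V j b (insert a A)) (fun j A => Kg w γ r V j b (insert a A)))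
        - 1 / 2 * (w a * w b * (w a - w b) ^ 2) * tip m N r ((V.erase a).erase b)
          (fun j => Phi w ((V.erase a).erase b) (fA (fr (sg γ j) r))) (fun j => Phi w ((V.erase a).erase b) (fA (fr (sg γ j) r))) := by
  set W := (V.erase a).erase b with hW
  have hW' : W = (V.erase b).erase a := by rw [hW, erase_right_comm]
  have haW : a ∉ W := by rw [hW']; exact notMem_erase _ _
  have hbW : b ∉ W := by rw [hW]; exact notMem_erase _ _
  have e1 : ∀ j, ∀ A ⊆ W, Kg w γ r V j a (insert b A)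
      = w a * w b * Phi w W (fA (fr (sg γ j) r)) A + w a * w b * w b * Phi w W (fAB (fr (sg γ j) r)) A := by
    intro j A hA
    rw [Kg_eq, Kf, erase_eq_insert2 hb hab, ← hW, Phi_insert_mem w _ hbW (fun h => hbW (hA h))]
    ring
  have e2 : ∀ j, ∀ A ⊆ W, Kg w γ r V j b (insert a A)
      = w b * w a * Phi w W (fA (fr (sg γ j) r)) A + w b * w a * w a * Phi w W (fAB (fr (sg γ j) r)) A := by
    intro j A hA
    rw [Kg_eq, Kf, erase_eq_insert2 ha hab.symm, ← hW', Phi_insert_mem w _ haW (fun h => haW (hA h))]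
    ring
  rw [tip_congr (F := fun j A => Kg w γ r V j a (insert b A)) (G := fun j A => Kg w γ r V j b (insert a A)) e1 e2,
    tip_congr (F := fun j A => Kg w γ r V j a (insert b A)) (G := fun j A => Kg w γ r V j a (insert b A)) e1 e1,
    tip_congr (F := fun j A => Kg w γ r V j b (insert a A)) (G := fun j A => Kg w γ r V j b (insert a A)) e2 e2,
    tip_lin2 hs N r W (fun j => Phi w W (fA (fr (sg γ j) r))), tip_lin2 hs N r W (fun j => Phi w W (fA (fr (sg γ j) r))),
    tip_lin2 hs N r W (fun j => Phi w W (fA (fr (sg γ j) r)))]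
  have h1 := (hw a).ne'
  have h2 := (hw b).ne'
  field_simp
  ring

/-! ### triples -/

theorem ins_eq (w : α → ℝ) (γ : ℕ → ℝ) (r : ℕ) (V W : Finset α) {x y z : α}
    (hy : y ∈ V) (hz : z ∈ V) (hxy : x ≠ y) (hxz : x ≠ z) (hyz : y ≠ z)
    (hW : W = ((V.erase x).erase y).erase z) (j : ℕ) (A : Finset α) (hA : A ⊆ W) :
    Kg w γ r V j x (insert y A) = w x * w y * Gv w (sg γ j) r W (w y) (w z) A := by
  rw [Kg_eq, Kf_insert w (sg γ j) r V W hy hz hxy hxz hyz hW hA]

theorem t_eq2 (m : ℕ → ℕ → ℕ → ℕ → ℝ) (w : α → ℝ) (γ : ℕ → ℝ) (N r : ℕ) (V W : Finset α) {x y z : α}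
    (hx : x ∈ V) (hy : y ∈ V) (hz : z ∈ V) (hxy : x ≠ y) (hxz : x ≠ z) (hyz : y ≠ z)
    (hW : W = ((V.erase x).erase y).erase z) :
    tip m N (r + 1) (((V.erase x).erase y).erase z) (fun j A => Kg w γ r V j x (insert y A)) (fun j A => Kg w γ r V j y (insert z A))
      = w x * w y ^ 2 * w z * tip m N (r + 1) W (fun j => Gv w (sg γ j) r W (w y) (w z)) (fun j => Gv w (sg γ j) r W (w z) (w x)) := by
  have hW2 : W = ((V.erase y).erase z).erase x := by
    rw [hW, erase_right_comm (a := x) (b := y), erase_right_comm (a := x) (b := z)]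
  rw [← hW, tip_congr (F' := fun j A => (w x * w y) * Gv w (sg γ j) r W (w y) (w z) A)
    (G' := fun j A => (w y * w z) * Gv w (sg γ j) r W (w z) (w x) A)
    (ins_eq w γ r V W hy hz hxy hxz hyz hW)
    (ins_eq w γ r V W hz hx hyz hxy.symm hxz.symm hW2), tip_smul_left, tip_smul_right]
  ring

/-- the squares: middle point `y` -/
theorem s_eq2 {m : ℕ → ℕ → ℕ → ℕ → ℝ} (w : α → ℝ) (hw : ∀ a, 0 < w a) (γ : ℕ → ℝ) (N r : ℕ) (V W : Finset α) {x y z : α}
    (hx : x ∈ V) (hz : z ∈ V) (hxy : x ≠ y) (hxz : x ≠ z) (hyz : y ≠ z)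
    (hW : W = ((V.erase x).erase y).erase z) :
    1 / 2 * (w z / w x * tip m N (r + 1) (((V.erase x).erase y).erase z)
        (fun j A => Kg w γ r V j y (insert x A)) (fun j A => Kg w γ r V j y (insert x A))
      + 2 * tip m N (r + 1) (((V.erase x).erase y).erase z)
        (fun j A => Kg w γ r V j y (insert x A)) (fun j A => Kg w γ r V j y (insert z A))
      + w x / w z * tip m N (r + 1) (((V.erase x).erase y).erase z)
        (fun j A => Kg w γ r V j y (insert z A)) (fun j A => Kg w γ r V j y (insert z A)))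
      = 1 / 2 * (w y ^ 2 * w x * w z) * (tip m N (r + 1) W (fun j => Gv w (sg γ j) r W (w x) (w z)) (fun j => Gv w (sg γ j) r W (w x) (w z))
        + 2 * tip m N (r + 1) W (fun j => Gv w (sg γ j) r W (w x) (w z)) (fun j => Gv w (sg γ j) r W (w z) (w x))
        + tip m N (r + 1) W (fun j => Gv w (sg γ j) r W (w z) (w x)) (fun j => Gv w (sg γ j) r W (w z) (w x))) := by
  have h1 : W = ((V.erase y).erase x).erase z := by rw [hW, erase_right_comm (a := x) (b := y)]
  have h2 : W = ((V.erase y).erase z).erase x := by rw [h1, erase_right_comm (a := x) (b := z)]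
  have e1 := ins_eq w γ r V W hx hz hxy.symm hyz hxz h1
  have e2 := ins_eq w γ r V W hz hx hyz hxy.symm hxz.symm h2
  rw [← hW, tip_congr (F := fun j A => Kg w γ r V j y (insert x A)) (G := fun j A => Kg w γ r V j y (insert x A)) e1 e1,
    tip_congr (F := fun j A => Kg w γ r V j y (insert x A)) (G := fun j A => Kg w γ r V j y (insert z A)) e1 e2,
    tip_congr (F := fun j A => Kg w γ r V j y (insert z A)) (G := fun j A => Kg w γ r V j y (insert z A)) e2 e2]
  simp only [tip_smul_left, tip_smul_right]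
  have k1 := (hw x).ne'
  have k2 := (hw z).ne'
  field_simp

/-- the bracket for the pair `x, y` and the third point `z` -/
noncomputable def Dt2 (m : ℕ → ℕ → ℕ → ℕ → ℝ) (w : α → ℝ) (γ : ℕ → ℝ) (N r : ℕ) (U : Finset α) (z : α) : ℝ :=
  tip m N (r + 1) (U.erase z)
      (fun j A => Kg w γ (r + 1) U j z A + Phi w U (fB (fr (sg γ j) r)) (insert z A) + Phi w U (fA (fr (sg γ j) r)) A)
      (fun j A => Kg w γ (r + 1) U j z A + Phi w U (fB (fr (sg γ j) r)) (insert z A) + Phi w U (fA (fr (sg γ j) r)) A)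
    - tip m N (r + 1) (U.erase z) (fun j A => Phi w U (fB (fr (sg γ j) r)) (insert z A))
        (fun j A => Phi w U (fB (fr (sg γ j) r)) (insert z A))
    - tip m N (r + 1) (U.erase z) (fun j => Phi w U (fA (fr (sg γ j) r))) (fun j => Phi w U (fA (fr (sg γ j) r)))

theorem Dt2_eq (m : ℕ → ℕ → ℕ → ℕ → ℝ) (w : α → ℝ) (γ : ℕ → ℝ) (N r : ℕ) (U W : Finset α) {z : α} (hz : z ∈ U) (hW : W = U.erase z) :
    Dt2 m w γ N r U z = tip m N (r + 1) W (fun j => Gv w (sg γ j) r W (w z) (w z)) (fun j => Gv w (sg γ j) r W (w z) (w z))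
      - w z ^ 2 * tip m N (r + 1) W (fun j A => 0 * Phi w W (fA (fr (sg γ j) r)) A + 0 * Phi w W (fAB (fr (sg γ j) r)) A
          + 1 * Phi w W (fB (fA (fr (sg γ j) r))) A + w z * Phi w W (fB (fAB (fr (sg γ j) r))) A)
          (fun j A => 0 * Phi w W (fA (fr (sg γ j) r)) A + 0 * Phi w W (fAB (fr (sg γ j) r)) A
          + 1 * Phi w W (fB (fA (fr (sg γ j) r))) A + w z * Phi w W (fB (fAB (fr (sg γ j) r))) A)
      - tip m N (r + 1) W (fun j A => 1 * Phi w W (fA (fr (sg γ j) r)) A + 0 * Phi w W (fAB (fr (sg γ j) r)) A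
          + w z * Phi w W (fB (fA (fr (sg γ j) r))) A + 0 * Phi w W (fB (fAB (fr (sg γ j) r))) A)
          (fun j A => 1 * Phi w W (fA (fr (sg γ j) r)) A + 0 * Phi w W (fAB (fr (sg γ j) r)) A
          + w z * Phi w W (fB (fA (fr (sg γ j) r))) A + 0 * Phi w W (fB (fAB (fr (sg γ j) r))) A) := by
  have hzW : z ∉ W := by rw [hW]; exact notMem_erase _ _
  have eU : U = insert z W := by rw [hW]; exact (insert_erase hz).symm
  have hs : ∀ A ⊆ W, z ∉ A := fun A hA h => hzW (hA h)
  have eP : ∀ j, ∀ A ⊆ W, Phi w U (fA (fr (sg γ j) r)) A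
      = 1 * Phi w W (fA (fr (sg γ j) r)) A + 0 * Phi w W (fAB (fr (sg γ j) r)) A
          + w z * Phi w W (fB (fA (fr (sg γ j) r))) A + 0 * Phi w W (fB (fAB (fr (sg γ j) r))) A := by
    intro j A hA
    rw [eU, Phi_insert w _ hzW (hs A hA)]
    ring
  have eQ : ∀ j, ∀ A ⊆ W, Phi w U (fB (fr (sg γ j) r)) (insert z A)
      = w z * (0 * Phi w W (fA (fr (sg γ j) r)) A + 0 * Phi w W (fAB (fr (sg γ j) r)) A
          + 1 * Phi w W (fB (fA (fr (sg γ j) r))) A + w z * Phi w W (fB (fAB (fr (sg γ j) r))) A) := by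
    intro j A hA
    rw [eU, Phi_insert_mem w _ hzW (hs A hA)]
    have h1 : fA (fB (fr (sg γ j) r)) = fB (fA (fr (sg γ j) r)) := rfl
    have h2 : fAB (fB (fr (sg γ j) r)) = fB (fAB (fr (sg γ j) r)) := rfl
    rw [h1, h2]
    ring
  have eK : ∀ j, ∀ A ⊆ W, Kg w γ (r + 1) U j z A = w z * (Phi w W (fAB (fr (sg γ j) r)) A - Phi w W (fB (fA (fr (sg γ j) r))) A) := by
    intro j A _
    rw [Kg_eq, Kf, ← hW, Phi_fr_succ]
  have eT : ∀ j, ∀ A ⊆ W, Kg w γ (r + 1) U j z A + Phi w U (fB (fr (sg γ j) r)) (insert z A) + Phi w U (fA (fr (sg γ j) r)) A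
      = Gv w (sg γ j) r W (w z) (w z) A := by
    intro j A hA
    rw [eK j A hA, eQ j A hA, eP j A hA, Gv]
    ring
  unfold Dt2
  rw [← hW, tip_congr eT eT,
    tip_congr (F := fun j => Phi w U (fA (fr (sg γ j) r))) (G := fun j => Phi w U (fA (fr (sg γ j) r))) eP eP,
    tip_congr (F := fun j A => Phi w U (fB (fr (sg γ j) r)) (insert z A)) (G := fun j A => Phi w U (fB (fr (sg γ j) r)) (insert z A)) eQ eQ,
    tip_smul_left, tip_smul_right]
  ring

theorem Gv_eq2 (w : α → ℝ) (γ : ℕ → ℝ) (r : ℕ) (W : Finset α) (s t : ℝ) :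
    (fun j => Gv w (sg γ j) r W s t) = fun j A => 1 * Phi w W (fA (fr (sg γ j) r)) A + s * Phi w W (fAB (fr (sg γ j) r)) A
      + t * Phi w W (fB (fA (fr (sg γ j) r))) A + (s * t) * Phi w W (fB (fAB (fr (sg γ j) r))) A := by
  funext j A
  rw [Gv]
  ring

theorem trip2 {m : ℕ → ℕ → ℕ → ℕ → ℝ} (hs : ∀ r j k S, m r j k S = m r k j S) (w : α → ℝ) (hw : ∀ a, 0 < w a)
    (γ : ℕ → ℝ) (N r : ℕ) (V : Finset α) {x y z : α}
    (hx : x ∈ V) (hy : y ∈ V) (hz : z ∈ V) (hxy : x ≠ y) (hxz : x ≠ z) (hyz : y ≠ z) :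
    sy (fun x y z => 2 * tip m N (r + 1) (((V.erase x).erase y).erase z) (fun j A => Kg w γ r V j x (insert y A))
          (fun j A => Kg w γ r V j y (insert z A))) x y z
    = sy (fun x y z => 1 / 2 * (w x * w y * (w x - w y) ^ 2) * Dt2 m w γ N r ((V.erase x).erase y) z
      + 1 / 2 * (w z / w x * tip m N (r + 1) (((V.erase x).erase y).erase z)
        (fun j A => Kg w γ r V j y (insert x A)) (fun j A => Kg w γ r V j y (insert x A))
      + 2 * tip m N (r + 1) (((V.erase x).erase y).erase z)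
        (fun j A => Kg w γ r V j y (insert x A)) (fun j A => Kg w γ r V j y (insert z A))
      + w x / w z * tip m N (r + 1) (((V.erase x).erase y).erase z)
        (fun j A => Kg w γ r V j y (insert z A)) (fun j A => Kg w γ r V j y (insert z A)))) x y z := by
  obtain ⟨W, hW⟩ : ∃ W, W = ((V.erase x).erase y).erase z := ⟨_, rfl⟩
  have h1 : W = ((V.erase x).erase z).erase y := by rw [hW, erase_right_comm (a := y)]
  have h2 : W = ((V.erase y).erase x).erase z := by rw [hW, erase_right_comm (a := x) (b := y)]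
  have h3 : W = ((V.erase y).erase z).erase x := by rw [h2, erase_right_comm (a := x)]
  have h4 : W = ((V.erase z).erase x).erase y := by rw [h1, erase_right_comm (a := x) (b := z)]
  have h5 : W = ((V.erase z).erase y).erase x := by rw [h4, erase_right_comm (a := x)]
  have mm : ∀ {a b c : α}, c ∈ V → a ≠ c → b ≠ c → c ∈ (V.erase a).erase b := fun {a b c} h1 h2 h3 =>
    mem_erase.2 ⟨fun e => h3 e.symm, mem_erase.2 ⟨fun e => h2 e.symm, h1⟩⟩
  simp only [sy]
  rw [s_eq2 w hw γ N r V W hx hz hxy hxz hyz hW, s_eq2 w hw γ N r V W hx hy hxz hxy hyz.symm h1,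
    s_eq2 w hw γ N r V W hy hz hxy.symm hyz hxz h2, s_eq2 w hw γ N r V W hy hx hyz hxy.symm hxz.symm h3,
    s_eq2 w hw γ N r V W hz hy hxz.symm hyz.symm hxy h4, s_eq2 w hw γ N r V W hz hx hyz.symm hxz.symm hxy.symm h5,
    t_eq2 m w γ N r V W hx hy hz hxy hxz hyz hW, t_eq2 m w γ N r V W hx hz hy hxz hxy hyz.symm h1,
    t_eq2 m w γ N r V W hy hx hz hxy.symm hyz hxz h2, t_eq2 m w γ N r V W hy hz hx hyz hxy.symm hxz.symm h3,
    t_eq2 m w γ N r V W hz hx hy hxz.symm hyz.symm hxy h4, t_eq2 m w γ N r V W hz hy hx hyz.symm hxz.symm hxy.symm h5,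
    Dt2_eq m w γ N r _ W (mm hz hxz hyz) hW, Dt2_eq m w γ N r _ W (mm hy hxy hyz.symm) h1, Dt2_eq m w γ N r _ W (mm hz hyz hxz) h2,
    Dt2_eq m w γ N r _ W (mm hx hxy.symm hxz.symm) h3, Dt2_eq m w γ N r _ W (mm hy hyz.symm hxy) h4,
    Dt2_eq m w γ N r _ W (mm hx hxz.symm hxy.symm) h5]
  simp only [Gv_eq2, tip_lin4 hs]
  ring

theorem S3_eq (V : Finset α) (f g : α → α → α → ℝ)
    (h : ∀ x ∈ V, ∀ y ∈ V, ∀ z ∈ V, x ≠ y → x ≠ z → y ≠ z → sy f x y z = sy g x y z) :
    S3 V f = S3 V g :=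
  le_antisymm (S3_le V g f fun x hx y hy z hz h1 h2 h3 => (h x hx y hy z hz h1 h2 h3).le)
    (S3_le V f g fun x hx y hy z hz h1 h2 h3 => (h x hx y hy z hz h1 h2 h3).ge)

/-! ### the recursion -/

theorem rec2 (m : ℕ → ℕ → ℕ → ℕ → ℝ) (hm : Rel m) (w : α → ℝ) (hw : ∀ a, 0 < w a) (γ : ℕ → ℝ) (N r : ℕ) (V : Finset α) :
    QG m N r V (Kg w γ r V) = SQ m w N r V (Kg w γ r V)
      + ∑ x ∈ V, ∑ y ∈ V.erase x, 1 / 2 * (w x * w y * (w x - w y) ^ 2) / ((r : ℝ) + 1) ^ 2
        * QG m N (r + 1) ((V.erase x).erase y) (Kg w γ (r + 1) ((V.erase x).erase y)) := by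
  have hr : (0 : ℝ) < (r : ℝ) + 1 := by positivity
  have hs := hm.2
  -- pairs
  have p1 : ∑ a ∈ V, ∑ b ∈ V.erase a, tip m N r ((V.erase a).erase b) (fun j => Kg w γ r V j a) (fun j => Kg w γ r V j b)
      = ∑ a ∈ V, ∑ b ∈ V.erase a, (w b / w a * tip m N r ((V.erase a).erase b) (fun j => Kg w γ r V j a) (fun j => Kg w γ r V j a)
        - 1 / 2 * (w a * w b * (w a - w b) ^ 2) * tip m N r ((V.erase a).erase b)
          (fun j => Phi w ((V.erase a).erase b) (fB (fr (sg γ j) r))) (fun j => Phi w ((V.erase a).erase b) (fB (fr (sg γ j) r)))) := by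
    have e : ∀ a ∈ V, ∀ b ∈ V.erase a, tip m N r ((V.erase a).erase b) (fun j => Kg w γ r V j a) (fun j => Kg w γ r V j b)
        = 1 / 2 * (w b / w a * tip m N r ((V.erase a).erase b) (fun j => Kg w γ r V j a) (fun j => Kg w γ r V j a))
        + 1 / 2 * (w a / w b * tip m N r ((V.erase a).erase b) (fun j => Kg w γ r V j b) (fun j => Kg w γ r V j b))
        + (- (1 / 2 * (w a * w b * (w a - w b) ^ 2) * tip m N r ((V.erase a).erase b)
          (fun j => Phi w ((V.erase a).erase b) (fB (fr (sg γ j) r))) (fun j => Phi w ((V.erase a).erase b) (fB (fr (sg γ j) r))))) := by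
      intro a ha b hb
      obtain ⟨h1, h2⟩ := mem_erase.1 hb
      rw [pair_eq1 hs w hw γ N r V ha h2 (fun e => h1 e.symm)]
      ring
    rw [sum_congr rfl fun a ha => sum_congr rfl (e a ha)]
    simp only [sum_add_distrib, sum_sub_distrib]
    rw [sum_pair_swap V (fun a b => 1 / 2 * (w a / w b * tip m N r ((V.erase a).erase b) (fun j => Kg w γ r V j b) (fun j => Kg w γ r V j b)))]
    have e2 : ∀ a ∈ V, ∀ b ∈ V.erase a, 1 / 2 * (w b / w a * tip m N r ((V.erase b).erase a) (fun j => Kg w γ r V j a) (fun j => Kg w γ r V j a))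
        = 1 / 2 * (w b / w a * tip m N r ((V.erase a).erase b) (fun j => Kg w γ r V j a) (fun j => Kg w γ r V j a)) := by
      intro a _ b _
      rw [erase_right_comm]
    rw [sum_congr rfl fun a ha => sum_congr rfl (e2 a ha)]
    simp only [sum_neg_distrib, ← mul_sum]
    ring
  have p2 : ∑ a ∈ V, ∑ b ∈ V.erase a, tip (nn m) N r ((V.erase a).erase b) (fun j A => Kg w γ r V j a (insert b A)) (fun j A => Kg w γ r V j b (insert a A))
      = ∑ a ∈ V, ∑ b ∈ V.erase a, (w a / w b * tip (nn m) N r ((V.erase a).erase b) (fun j A => Kg w γ r V j a (insert b A)) (fun j A => Kg w γ r V j a (insert b A))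
        - 1 / 2 * (w a * w b * (w a - w b) ^ 2) * tip (nn m) N r ((V.erase a).erase b)
          (fun j => Phi w ((V.erase a).erase b) (fA (fr (sg γ j) r))) (fun j => Phi w ((V.erase a).erase b) (fA (fr (sg γ j) r)))) := by
    have e : ∀ a ∈ V, ∀ b ∈ V.erase a, tip (nn m) N r ((V.erase a).erase b) (fun j A => Kg w γ r V j a (insert b A)) (fun j A => Kg w γ r V j b (insert a A))
        = 1 / 2 * (w a / w b * tip (nn m) N r ((V.erase a).erase b) (fun j A => Kg w γ r V j a (insert b A)) (fun j A => Kg w γ r V j a (insert b A)))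
        + 1 / 2 * (w b / w a * tip (nn m) N r ((V.erase a).erase b) (fun j A => Kg w γ r V j b (insert a A)) (fun j A => Kg w γ r V j b (insert a A)))
        + (- (1 / 2 * (w a * w b * (w a - w b) ^ 2) * tip (nn m) N r ((V.erase a).erase b)
          (fun j => Phi w ((V.erase a).erase b) (fA (fr (sg γ j) r))) (fun j => Phi w ((V.erase a).erase b) (fA (fr (sg γ j) r))))) := by
      intro a ha b hb
      obtain ⟨h1, h2⟩ := mem_erase.1 hb
      rw [pair_eq2 (nn_symm hs) w hw γ N r V ha h2 (fun e => h1 e.symm)]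
      ring
    rw [sum_congr rfl fun a ha => sum_congr rfl (e a ha)]
    simp only [sum_add_distrib, sum_sub_distrib]
    rw [sum_pair_swap V (fun a b => 1 / 2 * (w b / w a * tip (nn m) N r ((V.erase a).erase b) (fun j A => Kg w γ r V j b (insert a A)) (fun j A => Kg w γ r V j b (insert a A))))]
    have e2 : ∀ a ∈ V, ∀ b ∈ V.erase a, 1 / 2 * (w a / w b * tip (nn m) N r ((V.erase b).erase a) (fun j A => Kg w γ r V j a (insert b A)) (fun j A => Kg w γ r V j a (insert b A)))
        = 1 / 2 * (w a / w b * tip (nn m) N r ((V.erase a).erase b) (fun j A => Kg w γ r V j a (insert b A)) (fun j A => Kg w γ r V j a (insert b A))) := by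
      intro a _ b _
      rw [erase_right_comm]
    rw [sum_congr rfl fun a ha => sum_congr rfl (e2 a ha)]
    simp only [sum_neg_distrib, ← mul_sum]
    ring
  -- triples
  have t1 : 2 * ∑ x ∈ V, ∑ y ∈ V.erase x, ∑ z ∈ (V.erase x).erase y,
        tip m N (r + 1) (((V.erase x).erase y).erase z) (fun j A => Kg w γ r V j x (insert y A)) (fun j A => Kg w γ r V j y (insert z A))
      = S3 V (fun x y z => 1 / 2 * (w x * w y * (w x - w y) ^ 2) * Dt2 m w γ N r ((V.erase x).erase y) z)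
      + S3 V (fun x y z => 1 / 2 * (w z / w x * tip m N (r + 1) (((V.erase x).erase y).erase z)
        (fun j A => Kg w γ r V j y (insert x A)) (fun j A => Kg w γ r V j y (insert x A))
      + 2 * tip m N (r + 1) (((V.erase x).erase y).erase z)
        (fun j A => Kg w γ r V j y (insert x A)) (fun j A => Kg w γ r V j y (insert z A))
      + w x / w z * tip m N (r + 1) (((V.erase x).erase y).erase z)
        (fun j A => Kg w γ r V j y (insert z A)) (fun j A => Kg w γ r V j y (insert z A)))) := by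
    rw [← S3_add]
    rw [← S3_eq V (fun x y z => 2 * tip m N (r + 1) (((V.erase x).erase y).erase z) (fun j A => Kg w γ r V j x (insert y A))
          (fun j A => Kg w γ r V j y (insert z A))) _ (fun x hx y hy z hz h1 h2 h3 => trip2 hs w hw γ N r V hx hy hz h1 h2 h3)]
    unfold S3
    simp only [mul_sum]
  -- the combination
  have hC : ((r : ℝ) + 1) * (∑ x ∈ V, ∑ y ∈ V.erase x, -(1 / 2 * (w x * w y * (w x - w y) ^ 2) * tip m N r ((V.erase x).erase y)
          (fun j => Phi w ((V.erase x).erase y) (fB (fr (sg γ j) r))) (fun j => Phi w ((V.erase x).erase y) (fB (fr (sg γ j) r)))))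
      + (∑ x ∈ V, ∑ y ∈ V.erase x, -(1 / 2 * (w x * w y * (w x - w y) ^ 2) * tip (nn m) N r ((V.erase x).erase y)
          (fun j => Phi w ((V.erase x).erase y) (fA (fr (sg γ j) r))) (fun j => Phi w ((V.erase x).erase y) (fA (fr (sg γ j) r)))))
      + S3 V (fun x y z => 1 / 2 * (w x * w y * (w x - w y) ^ 2) * Dt2 m w γ N r ((V.erase x).erase y) z)
      = ∑ x ∈ V, ∑ y ∈ V.erase x, 1 / 2 * (w x * w y * (w x - w y) ^ 2) / ((r : ℝ) + 1) ^ 2
        * QG m N (r + 1) ((V.erase x).erase y) (Kg w γ (r + 1) ((V.erase x).erase y)) := by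
    rw [S3, mul_sum, ← sum_add_distrib, ← sum_add_distrib]
    refine sum_congr rfl fun x _ => ?_
    rw [mul_sum, ← sum_add_distrib, ← sum_add_distrib]
    refine sum_congr rfl fun y _ => ?_
    have hS := lemS2 m hm N r ((V.erase x).erase y) (Kg w γ (r + 1) ((V.erase x).erase y))
      (fun j => Phi w ((V.erase x).erase y) (fA (fr (sg γ j) r))) (fun j => Phi w ((V.erase x).erase y) (fB (fr (sg γ j) r)))
      (fun j A _ => P_eq w (sg γ j) r _ A) (fun j A _ => Q_eq w (sg γ j) r _ A)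
    rw [← hS, ← mul_sum]
    simp only [Dt2]
    field_simp
    ring
  rw [← hC]
  unfold QG SQ
  rw [p1, p2, t1]
  simp only [sum_sub_distrib, sum_neg_distrib, S3]
  ring

theorem QG_nonneg (m : ℕ → ℕ → ℕ → ℕ → ℝ) (hm : Rel m) (w : α → ℝ) (hw : ∀ a, 0 < w a) (γ : ℕ → ℝ) (N : ℕ) (V0 : Finset α)
    (hSQ : ∀ r, ∀ V ⊆ V0, V.card + 2 * r = V0.card → 0 ≤ SQ m w N r V (Kg w γ r V)) :
    0 ≤ QG m N 0 V0 (Kg w γ 0 V0) := by
  have key : ∀ n r, ∀ V ⊆ V0, V.card = n → V.card + 2 * r = V0.card → 0 ≤ QG m N r V (Kg w γ r V) := by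
    intro n
    induction n using Nat.strong_induction_on with
    | _ n ih =>
    intro r V hV hn hc
    rw [rec2 m hm w hw γ N r V]
    refine add_nonneg (hSQ r V hV hc) (sum_nonneg fun x hx => sum_nonneg fun y hy => ?_)
    have h1 := card_erase_add_one hx
    have h2 := card_erase_add_one hy
    refine mul_nonneg ?_ (ih _ ?_ (r + 1) _ ?_ rfl ?_)
    · have := hw x
      have := hw y
      positivity
    · omega
    · exact ((erase_subset _ _).trans (erase_subset _ _)).trans hV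
    · omega
  exact key _ 0 V0 (Subset.refl _) rfl (by ring)

/-- per-pair version: positivity of the forms and of the `nn`-terms -/
theorem QG_nonneg' (m : ℕ → ℕ → ℕ → ℕ → ℝ) (hm : Rel m) (w : α → ℝ) (hw : ∀ a, 0 < w a) (γ : ℕ → ℝ) (N : ℕ) (V0 : Finset α)
    (hpos : ∀ r (W : Finset α) (F : ℕ → Finset α → ℝ), 0 ≤ tip m N r W F F)
    (hW : ∀ r, ∀ V ⊆ V0, V.card + 2 * r = V0.card → ∀ a ∈ V, ∀ b ∈ V, a ≠ b →
      0 ≤ tip (nn m) N r ((V.erase a).erase b) (fun j A => Kg w γ r V j a (insert b A)) (fun j A => Kg w γ r V j a (insert b A))) :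
    0 ≤ QG m N 0 V0 (Kg w γ 0 V0) := by
  refine QG_nonneg m hm w hw γ N V0 fun r V hV hc => ?_
  have hs := hm.2
  unfold SQ
  have t1 : 0 ≤ ((r : ℝ) + 1) ^ 2 * ∑ a ∈ V, tip m N r (V.erase a) (fun j => Kg w γ r V j a) (fun j => Kg w γ r V j a) :=
    mul_nonneg (sq_nonneg _) (sum_nonneg fun a _ => hpos _ _ _)
  have t2 : 0 ≤ ((r : ℝ) + 1) * ∑ a ∈ V, ∑ b ∈ V.erase a, w b / w a *
      tip m N r ((V.erase a).erase b) (fun j => Kg w γ r V j a) (fun j => Kg w γ r V j a) :=
    mul_nonneg (by positivity) (sum_nonneg fun a _ => sum_nonneg fun b _ =>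
      mul_nonneg (div_pos (hw b) (hw a)).le (hpos _ _ _))
  have t3 : 0 ≤ ∑ a ∈ V, ∑ b ∈ V.erase a, w a / w b * tip (nn m) N r ((V.erase a).erase b)
      (fun j A => Kg w γ r V j a (insert b A)) (fun j A => Kg w γ r V j a (insert b A)) :=
    sum_nonneg fun a ha => sum_nonneg fun b hb =>
      mul_nonneg (div_pos (hw a) (hw b)).le (hW r V hV hc a ha b (mem_erase.1 hb).2 (fun e => (mem_erase.1 hb).1 e.symm))
  have t4 : 0 ≤ ∑ x ∈ V, ∑ y ∈ V.erase x, ∑ z ∈ (V.erase x).erase y, 1 / 2 * (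
      w z / w x * tip m N (r + 1) (((V.erase x).erase y).erase z)
        (fun j A => Kg w γ r V j y (insert x A)) (fun j A => Kg w γ r V j y (insert x A))
      + 2 * tip m N (r + 1) (((V.erase x).erase y).erase z)
        (fun j A => Kg w γ r V j y (insert x A)) (fun j A => Kg w γ r V j y (insert z A))
      + w x / w z * tip m N (r + 1) (((V.erase x).erase y).erase z)
        (fun j A => Kg w γ r V j y (insert z A)) (fun j A => Kg w γ r V j y (insert z A))) := by
    refine sum_nonneg fun x _ => sum_nonneg fun y _ => sum_nonneg fun z _ => ?_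
    have h := hpos (r + 1) (((V.erase x).erase y).erase z)
      (fun j A => w z * Kg w γ r V j y (insert x A) + w x * Kg w γ r V j y (insert z A))
    rw [tip_lin2 hs N (r + 1) _ (fun j A => Kg w γ r V j y (insert x A)) (fun j A => Kg w γ r V j y (insert z A))] at h
    have hx := hw x
    have hz := hw z
    have e : w z / w x * tip m N (r + 1) (((V.erase x).erase y).erase z)
        (fun j A => Kg w γ r V j y (insert x A)) (fun j A => Kg w γ r V j y (insert x A))
      + 2 * tip m N (r + 1) (((V.erase x).erase y).erase z)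
        (fun j A => Kg w γ r V j y (insert x A)) (fun j A => Kg w γ r V j y (insert z A))
      + w x / w z * tip m N (r + 1) (((V.erase x).erase y).erase z)
        (fun j A => Kg w γ r V j y (insert z A)) (fun j A => Kg w γ r V j y (insert z A))
      = (w z * w z * tip m N (r + 1) (((V.erase x).erase y).erase z)
        (fun j A => Kg w γ r V j y (insert x A)) (fun j A => Kg w γ r V j y (insert x A))
      + (w z * w x + w x * w z) * tip m N (r + 1) (((V.erase x).erase y).erase z)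
        (fun j A => Kg w γ r V j y (insert x A)) (fun j A => Kg w γ r V j y (insert z A))
      + w x * w x * tip m N (r + 1) (((V.erase x).erase y).erase z)
        (fun j A => Kg w γ r V j y (insert z A)) (fun j A => Kg w γ r V j y (insert z A))) / (w x * w z) := by
      field_simp
      ring
    rw [e]
    exact mul_nonneg (by norm_num) (div_nonneg h (mul_pos hx hz).le)
  linarith

end RL2
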